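import Pool.Agent.H36.QA.ADefs
import Pool.Agent.H63.MA.RayC

/-!
# H57/LI: the large sieve for pairs (cyclic cubic field, quadratic ray class character) (T3, chapter (I)): definitions and interfaces

`K` is a number field, `Ω` a field extension of `K`, `𝔪` a nonzero ideal of `K` (the modulus over the bad primes).

* `md 𝔪 F`: the ideal `𝔪 𝓞_F`.
* `AP K Ω 𝔪`: a cyclic cubic extension `F` of `K` in `Ω` with a nontrivial quadratic character `χ` modulo `𝔪 𝓞_F`, trivial on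
  the ideals of `K`.
* `AP.lp x l`: `λ_χ(l) = ∑_{P | l} χ(P)` for a prime `l` of `K` with three primes above it in `F`, and `0` otherwise.
* `AP.lq x q = ∏_{l | q} λ_χ(l)` for squarefree `q`, and `0` otherwise.
* `AP.Cj x y`: the pairs are conjugate over `K`.
* `AP.D x`: absolute value of the discriminant of `F`.

Interfaces: `ICS n` (sums of a nontrivial ray class character over the ideals of norm at most `M`, uniformly in the field of
degree `n`), `CORR`, `LI1`, `LI2`.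
-/

set_option autoImplicit false

open scoped NumberField
open NumberField H63.MA H36.QA

noncomputable section

namespace H57.LI

/-- the ideal `𝔪 𝓞_F` -/
def md {K : Type} [Field K] (𝔪 : Ideal (𝓞 K)) (F : Type) [Field F] [Algebra K F] : Ideal (𝓞 F) :=
  𝔪.map (algebraMap (𝓞 K) (𝓞 F))

variable (K Ω : Type) [Field K] [NumberField K] [Field Ω] [Algebra K Ω]

/-- a cyclic cubic extension `F` of `K` (in `Ω`) with a nontrivial quadratic ray class character modulo `𝔪 𝓞_F` which is trivial on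
the ideals of `K` -/
structure AP (𝔪 : Ideal (𝓞 K)) where
  /-- the field -/
  F : IntermediateField K Ω
  nf : NumberField F
  gal : IsGalois K F
  deg : Module.finrank K F = 3
  /-- the character -/
  χ : RC F (md 𝔪 F)
  quad : ∀ I, I ≠ ⊥ → IsCoprime I (md 𝔪 F) → χ.χ I = 1 ∨ χ.χ I = -1
  triv : ∀ J : Ideal (𝓞 K), J ≠ ⊥ → IsCoprime J 𝔪 → χ.χ (md J F) = 1
  non : χ.Non

attribute [instance] AP.nf AP.gal

variable {K Ω} {𝔪 : Ideal (𝓞 K)}

/-- `λ_χ(l)`: the sum of `χ(P)` over the primes `P` of `F` above `l` if there are three of them, and `0` otherwise -/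
def AP.lp (x : AP K Ω 𝔪) (l : Ideal (𝓞 K)) : ℝ :=
  open Classical in if (l.primesOver (𝓞 x.F)).ncard = 3 then ∑ᶠ P ∈ l.primesOver (𝓞 x.F), (x.χ.χ P).re else 0

/-- `λ_χ(q) = ∏_{l | q} λ_χ(l)` for squarefree `q`, and `0` otherwise -/
def AP.lq (x : AP K Ω 𝔪) (q : Ideal (𝓞 K)) : ℝ :=
  open Classical in if Squarefree q then ((UniqueFactorizationMonoid.normalizedFactors q).map x.lp).prod else 0

/-- the two pairs are conjugate over `K` -/
def AP.Cj (x y : AP K Ω 𝔪) : Prop :=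
  ∃ σ : x.F ≃ₐ[K] y.F, ∀ I : Ideal (𝓞 x.F),
    y.χ.χ (I.map (RingOfIntegers.mapRingEquiv σ.toRingEquiv : 𝓞 x.F ≃+* 𝓞 y.F)) = x.χ.χ I

/-- the absolute value of the discriminant of `F` -/
def AP.D (x : AP K Ω 𝔪) : ℝ := dd x.F

/-- INTERFACE: sums of a nontrivial ray class character over the ideals of norm at most `M`, uniformly in the totally complex field
of degree `n` -/
def ICS (n : ℕ) : Prop :=
  ∃ (C : ℝ) (A : ℕ) (δ : ℝ), 1 ≤ C ∧ 0 < δ ∧ δ ≤ 1 / 4 ∧ ∀ (F : Type) [Field F] [NumberField F], TC F n →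
    ∀ 𝔣 : Ideal (𝓞 F), 𝔣 ≠ ⊥ → ∀ ψ : RC F 𝔣, ψ.Non → ∀ M : ℝ, 1 ≤ M →
      ‖∑ I ∈ IN F M, ψ.χ I‖ ≤ C * (dd F * Ideal.absNorm 𝔣) ^ A * M ^ (1 - δ)

variable (K Ω 𝔪)

/-- INTERFACE: the correlation of two pairs which are not conjugate -/
def CORR : Prop :=
  ∃ (C : ℝ) (A : ℕ) (δ : ℝ), 1 ≤ C ∧ 0 < δ ∧ δ ≤ 1 / 4 ∧ ∀ x y : AP K Ω 𝔪, ¬ x.Cj y → ∀ Y : ℝ, 1 ≤ Y →
    |∑ q ∈ IN K Y, x.lq q * y.lq q| ≤ C * (x.D * y.D) ^ A * Y ^ (1 - δ)

/-- INTERFACE: the sum over `q` of one pair -/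
def LI1 : Prop :=
  ∃ (C : ℝ) (A : ℕ) (δ : ℝ), 1 ≤ C ∧ 0 < δ ∧ δ ≤ 1 / 4 ∧ ∀ x : AP K Ω 𝔪, ∀ Y : ℝ, 1 ≤ Y →
    |∑ q ∈ IN K Y, x.lq q| ≤ C * x.D ^ A * Y ^ (1 - δ)

/-- INTERFACE: for all pairs with discriminant at most `R ^ A₁`, with at most `R ^ ε` exceptions, the sum over `q` is at most
`Y (log R)^(-B)` for all `Y ≥ exp ((log log R)^3)` -/
def LI2 : Prop :=
  ∀ (A₁ B : ℕ) (ε : ℝ), 0 < ε → ∃ R₀ : ℝ, 3 ≤ R₀ ∧ ∀ R : ℝ, R₀ ≤ R → ∀ J : Set (AP K Ω 𝔪),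
    (∀ x ∈ J, x.D ≤ R ^ A₁ ∧ ∃ Y : ℝ, Real.exp (Real.log (Real.log R) ^ 3) ≤ Y ∧
      Y / Real.log R ^ B < |∑ q ∈ IN K Y, x.lq q|) →
    J.Finite ∧ (J.ncard : ℝ) ≤ R ^ ε

end H57.LI
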