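import Mathlib

/-!
# H57/LI/Abs: the abstract frame of (LI2) (Mathlib only)

`Pr ι`: a system of primes `i : ι` with norms `N i ≥ 2`, at most `n` primes of every norm, and a bound for the harmonic sum over
the squarefree products. `p.P x`: the primes of norm at most `x`. `p.SF x`: the squarefree products (finite sets of primes) of norm
at most `x`. `p.nn s`: the norm of the product. `pd f s = ∏ i ∈ s, f i`.
-/

set_option autoImplicit false

noncomputable section

namespace H57.LI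

/-- a system of primes with norms -/
structure Pr (ι : Type) where
  /-- the norm -/
  N : ι → ℕ
  /-- the degree -/
  n : ℕ
  /-- the constant of the harmonic sum -/
  C : ℝ
  two : ∀ i, 2 ≤ N i
  fin : ∀ m, {i | N i = m}.Finite
  mul : ∀ m, {i | N i = m}.ncard ≤ n
  C1 : 1 ≤ C
  har : ∀ Z : ℝ, 2 ≤ Z → ∀ T : Finset (Finset ι), (∀ s ∈ T, ∏ i ∈ s, (N i : ℝ) ≤ Z) →
    ∑ s ∈ T, 1 / ∏ i ∈ s, (N i : ℝ) ≤ C * Real.log Z ^ n

variable {ι : Type} (p : Pr ι)

theorem Pr.finP (x : ℝ) : {i | (p.N i : ℝ) ≤ x}.Finite := by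
  have h : {i | (p.N i : ℝ) ≤ x} ⊆ ⋃ m ∈ Finset.range (⌊x⌋₊ + 1), {i | p.N i = m} := by
    intro i hi
    have h1 : p.N i ≤ ⌊x⌋₊ := Nat.le_floor hi
    simp only [Set.mem_iUnion, Finset.mem_range, Set.mem_setOf_eq]
    exact ⟨p.N i, by omega, rfl⟩
  exact (Set.Finite.biUnion (Finset.finite_toSet _) fun m _ => p.fin m).subset h

/-- the primes of norm at most `x` -/
def Pr.P (x : ℝ) : Finset ι := (p.finP x).toFinset

theorem Pr.mem_P {x : ℝ} {i : ι} : i ∈ p.P x ↔ (p.N i : ℝ) ≤ x := by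
  unfold Pr.P
  rw [Set.Finite.mem_toFinset]
  rfl

/-- the norm of a product of primes -/
def Pr.nn (s : Finset ι) : ℝ := ∏ i ∈ s, (p.N i : ℝ)

/-- the product of the values -/
def pd (f : ι → ℝ) (s : Finset ι) : ℝ := ∏ i ∈ s, f i

open Classical in
/-- the squarefree products of norm at most `x` -/
def Pr.SF (x : ℝ) : Finset (Finset ι) := (p.P x).powerset.filter fun s => p.nn s ≤ x

theorem Pr.one_le (i : ι) : (1 : ℝ) ≤ p.N i := by
  have := p.two i
  exact_mod_cast (by omega : 1 ≤ p.N i)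

theorem Pr.two_le (i : ι) : (2 : ℝ) ≤ p.N i := by
  exact_mod_cast p.two i

theorem Pr.one_le_nn (s : Finset ι) : 1 ≤ p.nn s := by
  unfold Pr.nn
  have h := Finset.prod_le_prod (s := s) (f := fun _ => (1 : ℝ)) (g := fun i => (p.N i : ℝ))
    (fun _ _ => zero_le_one) (fun i _ => p.one_le i)
  rwa [Finset.prod_const_one] at h

theorem Pr.nn_pos (s : Finset ι) : 0 < p.nn s := lt_of_lt_of_le one_pos (p.one_le_nn s)

theorem Pr.le_nn {s : Finset ι} {i : ι} (h : i ∈ s) : (p.N i : ℝ) ≤ p.nn s := by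
  classical
  have h1 : p.nn s = p.N i * p.nn (s.erase i) := by
    unfold Pr.nn
    rw [Finset.mul_prod_erase s (fun i => (p.N i : ℝ)) h]
  rw [h1]
  have h2 := p.one_le_nn (s.erase i)
  have h3 := p.one_le i
  nlinarith

theorem Pr.mem_SF {x : ℝ} {s : Finset ι} : s ∈ p.SF x ↔ p.nn s ≤ x := by
  unfold Pr.SF
  rw [Finset.mem_filter, Finset.mem_powerset]
  refine ⟨fun h => h.2, fun h => ⟨fun i hi => p.mem_P.2 ((p.le_nn hi).trans h), h⟩⟩

/-- the sum of the values over the primes of norm at most `x` -/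
def Pr.S1 (f : ι → ℝ) (x : ℝ) : ℝ := ∑ i ∈ p.P x, f i

/-- the sum of the values over the squarefree products of norm at most `x` -/
def Pr.SS (f : ι → ℝ) (x : ℝ) : ℝ := ∑ s ∈ p.SF x, pd f s

end H57.LI
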