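import Pool.Agent.H57.LI.Defs
import Pool.Agent.H57.LI.Abs
import Pool.Agent.H57.TLS.Har

/-!
# [H57 LI PRK] The primes of a number field as an abstract system; squarefree ideals and finite sets of primes

`idl s = ∏ l ∈ s, l`. `prK K`: the system `Pr (Pl K)`. `sum_sf`: for a function `g` on ideals with `g q = 0` for `q` not squarefree:
`∑ q ∈ IN K Y, g q = ∑ s ∈ (prK K).SF Y, g (idl s)`. `lq_idl`: `x.lq (idl s) = pd (x.lam) s`.
-/

set_option autoImplicit false

open scoped NumberField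
open NumberField H63.MA H36.QA UniqueFactorizationMonoid

noncomputable section

namespace H57.LI

variable {K : Type} [Field K] [NumberField K]

theorem prk_pow (v : Pl K) : (nm v).minFac.Prime ∧ ∃ f : ℕ, 1 ≤ f ∧ nm v = (nm v).minFac ^ f := by
  have hmax : v.asIdeal.IsMaximal := v.isMaximal
  obtain ⟨p, n, hn, -, hp, h⟩ := Ideal.exists_prime_and_absNorm_eq_pow v.asIdeal
  have h1 : nm v = p ^ n := h
  have h2 : (nm v).minFac = p := by
    rw [h1]
    exact hp.pow_minFac (Nat.pos_iff_ne_zero.1 hn)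
  rw [h2]
  exact ⟨hp, n, hn, h1⟩

theorem prk_mem (v : Pl K) : (((nm v).minFac : ℕ) : 𝓞 K) ∈ v.asIdeal := by
  obtain ⟨-, f, -, hf⟩ := prk_pow v
  have h1 : ((nm v : ℕ) : 𝓞 K) ∈ v.asIdeal := Ideal.absNorm_mem v.asIdeal
  have hp := v.isPrime
  apply hp.mem_of_pow_mem f
  rw [← Nat.cast_pow, ← hf]
  exact h1

theorem prk_two (v : Pl K) : 2 ≤ nm v := by
  obtain ⟨h1, f, hf, h2⟩ := prk_pow v
  rw [h2]
  calc 2 ≤ (nm v).minFac := h1.two_le
    _ = (nm v).minFac ^ 1 := (pow_one _).symm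
    _ ≤ _ := Nat.pow_le_pow_right h1.pos hf

theorem prk_fibre (ℓ : ℕ) (s : Finset (Pl K)) (hs : ∀ v ∈ s, (nm v).minFac = ℓ) :
    s.card ≤ Module.finrank ℚ K := by
  classical
  rcases s.eq_empty_or_nonempty with rfl | ⟨v0, hv0⟩
  · simp
  have hℓ : ℓ.Prime := by
    rw [← hs v0 hv0]
    exact (prk_pow v0).1
  have h1 : ∏ v ∈ s, v.asIdeal ∣ Ideal.span {((ℓ : ℕ) : 𝓞 K)} := by
    have h2 : ∏ I ∈ s.image (fun v => v.asIdeal), I ∣ Ideal.span {((ℓ : ℕ) : 𝓞 K)} := by
      apply Finset.prod_primes_dvd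
      · intro I hI
        obtain ⟨v, -, rfl⟩ := Finset.mem_image.1 hI
        exact v.prime
      · intro I hI
        obtain ⟨v, hv, rfl⟩ := Finset.mem_image.1 hI
        rw [Ideal.dvd_span_singleton, ← hs v hv]
        exact prk_mem v
    rwa [Finset.prod_image] at h2
    intro v _ v' _ h
    exact IsDedekindDomain.HeightOneSpectrum.ext h
  have h3 : Ideal.absNorm (∏ v ∈ s, v.asIdeal) ∣ ℓ ^ Module.finrank ℤ (𝓞 K) := by
    rw [← Ideal.absNorm_span_natCast]
    exact map_dvd Ideal.absNorm h1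
  rw [map_prod, RingOfIntegers.rank] at h3
  have h4 : ℓ ^ s.card ≤ ∏ v ∈ s, Ideal.absNorm v.asIdeal := by
    rw [← Finset.prod_const]
    apply Finset.prod_le_prod'
    intro v hv
    rw [← hs v hv]
    exact Nat.minFac_le (by have := prk_two v; omega)
  have h5 := h4.trans (Nat.le_of_dvd (pow_pos hℓ.pos _) h3)
  exact (Nat.pow_le_pow_iff_right hℓ.one_lt).1 h5

theorem prk_set (m : ℕ) : {v : Pl K | nm v = m}.Finite ∧ {v : Pl K | nm v = m}.ncard ≤ Module.finrank ℚ K := by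
  have key : ∀ t : Finset (Pl K), (t : Set (Pl K)) ⊆ {v : Pl K | nm v = m} → t.card ≤ Module.finrank ℚ K := by
    intro t ht
    exact prk_fibre m.minFac t (fun v hv => by rw [show nm v = m from ht hv])
  have hfin : {v : Pl K | nm v = m}.Finite := by
    by_contra hinf
    obtain ⟨t, ht, htc⟩ := Set.Infinite.exists_subset_card_eq hinf (Module.finrank ℚ K + 1)
    have := key t ht
    omega
  refine ⟨hfin, ?_⟩
  rw [Set.ncard_eq_toFinset_card _ hfin]
  exact key _ (fun v hv => (Set.Finite.mem_toFinset hfin).1 hv)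

/-- the product of a finite set of primes -/
def idl (s : Finset (Pl K)) : Ideal (𝓞 K) := ∏ l ∈ s, l.asIdeal

theorem idl_ne (s : Finset (Pl K)) : idl s ≠ ⊥ := by
  unfold idl
  rw [← Ideal.zero_eq_bot, Finset.prod_ne_zero_iff]
  intro l _
  rw [Ideal.zero_eq_bot]
  exact l.ne_bot

theorem idl_norm (s : Finset (Pl K)) : (Ideal.absNorm (idl s) : ℝ) = ∏ l ∈ s, (nm l : ℝ) := by
  unfold idl nm
  rw [map_prod]
  push_cast
  rfl

theorem idl_nf (s : Finset (Pl K)) : normalizedFactors (idl s) = s.val.map (fun l => l.asIdeal) := by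
  have h : idl s = (s.val.map (fun l => l.asIdeal)).prod := rfl
  rw [h]
  refine normalizedFactors_prod_of_prime fun I hI => ?_
  obtain ⟨l, -, rfl⟩ := Multiset.mem_map.1 hI
  exact l.prime

theorem idl_inj : Function.Injective (idl : Finset (Pl K) → Ideal (𝓞 K)) := by
  intro s t h
  have h1 := congrArg normalizedFactors h
  rw [idl_nf, idl_nf] at h1
  have h2 := Multiset.map_injective (fun a b hab => IsDedekindDomain.HeightOneSpectrum.ext hab) h1
  exact Finset.val_injective h2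

theorem idl_sqf (s : Finset (Pl K)) : Squarefree (idl s) := by
  rw [squarefree_iff_nodup_normalizedFactors (by rw [Ideal.zero_eq_bot]; exact idl_ne s), idl_nf]
  exact s.nodup.map (fun a b hab => IsDedekindDomain.HeightOneSpectrum.ext hab)

theorem idl_surj (q : Ideal (𝓞 K)) (hq : q ≠ ⊥) (hs : Squarefree q) : ∃ s : Finset (Pl K), idl s = q := by
  classical
  have h0 : q ≠ 0 := by rw [Ideal.zero_eq_bot]; exact hq
  have hn := (squarefree_iff_nodup_normalizedFactors h0).1 hs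
  have hp : ∀ I ∈ normalizedFactors q, Prime I := fun I hI => prime_of_normalized_factor I hI
  let f : {I // I ∈ normalizedFactors q} → Pl K := fun I =>
    ⟨I.1, Ideal.isPrime_of_prime (hp I.1 I.2), (hp I.1 I.2).ne_zero⟩
  refine ⟨(normalizedFactors q).toFinset.attach.image
    (fun I => f ⟨I.1, Multiset.mem_toFinset.1 I.2⟩), ?_⟩
  unfold idl
  rw [Finset.prod_image]
  · have h1 : ∏ x ∈ (normalizedFactors q).toFinset.attach, (f ⟨x.1, Multiset.mem_toFinset.1 x.2⟩).asIdeal =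
        ∏ x ∈ (normalizedFactors q).toFinset.attach, (x : Ideal (𝓞 K)) := rfl
    have h2 : ∏ x ∈ (normalizedFactors q).toFinset, x = (normalizedFactors q).prod := by
      have h3 : ∏ x ∈ (normalizedFactors q).toFinset, x = ((normalizedFactors q).toFinset.val.map fun x => x).prod := rfl
      rw [h3, Multiset.map_id', Multiset.toFinset_val, Multiset.dedup_eq_self.2 hn]
    rw [h1, Finset.prod_attach _ (fun x => x), h2]
    exact Ideal.prod_normalizedFactors_eq_self hq
  · intro a _ b _ hab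
    apply Subtype.ext
    exact congrArg IsDedekindDomain.HeightOneSpectrum.asIdeal hab

variable (K) in
/-- the primes of `K` as an abstract system of primes -/
theorem prk_exists : ∃ p : Pr (Pl K), (∀ l, p.N l = nm l) ∧ p.n = Module.finrank ℚ K := by
  obtain ⟨C, hC, h⟩ := H57.TLS.har (Module.finrank ℚ K) Module.finrank_pos
  have h1 := h K rfl
  refine ⟨⟨nm, Module.finrank ℚ K, C, prk_two, fun m => (prk_set m).1, fun m => (prk_set m).2, hC, ?_⟩,
    fun _ => rfl, rfl⟩
  classical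
  intro Z hZ T hT
  refine le_trans ?_ (h1 Z hZ)
  have h2 : ∑ s ∈ T, 1 / ∏ i ∈ s, (nm i : ℝ) = ∑ q ∈ T.image idl, 1 / (Ideal.absNorm q : ℝ) := by
    rw [Finset.sum_image (fun a _ b _ hab => idl_inj hab)]
    refine Finset.sum_congr rfl fun s _ => ?_
    rw [idl_norm]
  rw [h2]
  refine Finset.sum_le_sum_of_subset_of_nonneg ?_ fun _ _ _ => by positivity
  intro q hq
  obtain ⟨s, hs, rfl⟩ := Finset.mem_image.1 hq
  refine (mem_IN (by linarith)).2 ⟨?_, idl_ne s⟩
  rw [idl_norm]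
  exact hT s hs

variable (K) in
/-- the primes of `K` as an abstract system of primes -/
def prK : Pr (Pl K) := (prk_exists K).choose

theorem prK_N (l : Pl K) : (prK K).N l = nm l := (prk_exists K).choose_spec.1 l

theorem prK_n : (prK K).n = Module.finrank ℚ K := (prk_exists K).choose_spec.2

theorem prK_nn (s : Finset (Pl K)) : (prK K).nn s = Ideal.absNorm (idl s) := by
  rw [idl_norm]
  unfold Pr.nn
  refine Finset.prod_congr rfl fun l _ => ?_
  rw [prK_N]

theorem sum_sf (g : Ideal (𝓞 K) → ℝ) (hg : ∀ q, ¬ Squarefree q → g q = 0) (Y : ℝ) (hY : 0 ≤ Y) :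
    ∑ q ∈ IN K Y, g q = ∑ s ∈ (prK K).SF Y, g (idl s) := by
  classical
  rw [← Finset.sum_image (f := g) (g := idl) (fun a _ b _ hab => idl_inj hab)]
  symm
  refine Finset.sum_subset ?_ ?_
  · intro q hq
    obtain ⟨s, hs, rfl⟩ := Finset.mem_image.1 hq
    refine (mem_IN hY).2 ⟨?_, idl_ne s⟩
    rw [← prK_nn]
    exact (prK K).mem_SF.1 hs
  · intro q hq hq'
    by_contra hne
    apply hq'
    have h1 : Squarefree q := by
      by_contra hs
      exact hne (hg q hs)
    obtain ⟨h2, h3⟩ := (mem_IN hY).1 hq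
    obtain ⟨s, rfl⟩ := idl_surj q h3 h1
    refine Finset.mem_image.2 ⟨s, (prK K).mem_SF.2 ?_, rfl⟩
    rw [prK_nn]
    exact h2

variable {Ω : Type} [Field Ω] [Algebra K Ω] {𝔪 : Ideal (𝓞 K)}

/-- the values at the primes -/
def AP.lam (x : AP K Ω 𝔪) (l : Pl K) : ℝ := x.lp l.asIdeal

theorem lq_idl (x : AP K Ω 𝔪) (s : Finset (Pl K)) : x.lq (idl s) = pd x.lam s := by
  unfold AP.lq
  rw [if_pos (idl_sqf s), idl_nf, Multiset.map_map]
  rfl

theorem lq_zero (x : AP K Ω 𝔪) (q : Ideal (𝓞 K)) (h : ¬ Squarefree q) : x.lq q = 0 := by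
  unfold AP.lq
  rw [if_neg h]

theorem sum_lq (x : AP K Ω 𝔪) (Y : ℝ) (hY : 0 ≤ Y) : ∑ q ∈ IN K Y, x.lq q = (prK K).SS x.lam Y := by
  rw [sum_sf x.lq (lq_zero x) Y hY]
  unfold Pr.SS
  exact Finset.sum_congr rfl fun s _ => lq_idl x s

theorem sum_lq2 (x y : AP K Ω 𝔪) (Y : ℝ) (hY : 0 ≤ Y) :
    ∑ q ∈ IN K Y, x.lq q * y.lq q = ∑ s ∈ (prK K).SF Y, pd x.lam s * pd y.lam s := by
  rw [sum_sf (fun q => x.lq q * y.lq q) (fun q h => by simp only [lq_zero x q h, zero_mul]) Y hY]
  exact Finset.sum_congr rfl fun s _ => by rw [lq_idl, lq_idl]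

theorem norm_rc {F : Type} [Field F] [NumberField F] {𝔣 : Ideal (𝓞 F)} (χ : RC F 𝔣) (I : Ideal (𝓞 F)) : ‖χ.χ I‖ ≤ 1 := by
  by_cases h0 : I = ⊥
  · rw [h0, ← Ideal.zero_eq_bot, map_zero, norm_zero]
    exact zero_le_one
  · by_cases hc : IsCoprime I 𝔣
    · exact (χ.norm_one I h0 hc).le
    · rw [χ.zero_of I hc, norm_zero]
      exact zero_le_one

theorem lam_le (x : AP K Ω 𝔪) (l : Pl K) : |x.lam l| ≤ 3 := by
  classical
  unfold AP.lam AP.lp
  split_ifs with h
  · have hfin : (l.asIdeal.primesOver (𝓞 x.F)).Finite := Set.finite_of_ncard_ne_zero (by rw [h]; norm_num)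
    rw [finsum_mem_eq_finite_toFinset_sum _ hfin]
    refine (Finset.abs_sum_le_sum_abs _ _).trans ?_
    have h1 : ∑ P ∈ hfin.toFinset, |(x.χ.χ P).re| ≤ ∑ P ∈ hfin.toFinset, (1 : ℝ) :=
      Finset.sum_le_sum fun P _ => (Complex.abs_re_le_norm _).trans (norm_rc x.χ P)
    refine h1.trans ?_
    rw [Finset.sum_const, nsmul_eq_mul, mul_one, ← Set.ncard_eq_toFinset_card _ hfin, h]
    norm_num
  · rw [abs_zero]
    norm_num

end H57.LI
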