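import Pool.Agent.H57.LI.Defs

/-!
# [H57 LI REP] Conjugate pairs: at most three in every class; representatives
-/

set_option autoImplicit false

open scoped NumberField
open NumberField H63.MA H36.QA

noncomputable section

namespace H57.LI

variable {K Ω : Type} [Field K] [NumberField K] [Field Ω] [Algebra K Ω] {𝔪 : Ideal (𝓞 K)}

theorem mre_symm {A B : Type} [Field A] [Field B] (e : A ≃+* B) (I : Ideal (𝓞 B)) :
    (I.map (RingOfIntegers.mapRingEquiv e.symm : 𝓞 B ≃+* 𝓞 A)).map (RingOfIntegers.mapRingEquiv e : 𝓞 A ≃+* 𝓞 B) = I := by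
  have h : (RingOfIntegers.mapRingEquiv e.symm : 𝓞 B ≃+* 𝓞 A) = (RingOfIntegers.mapRingEquiv e : 𝓞 A ≃+* 𝓞 B).symm := rfl
  rw [h, Ideal.map_symm]
  exact Ideal.map_comap_of_surjective _ (RingEquiv.surjective _) I

theorem cj_symm {x y : AP K Ω 𝔪} (h : x.Cj y) : y.Cj x := by
  obtain ⟨σ, hσ⟩ := h
  refine ⟨σ.symm, fun I => ?_⟩
  have h1 := hσ (I.map (RingOfIntegers.mapRingEquiv σ.symm.toRingEquiv : 𝓞 y.F ≃+* 𝓞 x.F))
  have h2 := mre_symm σ.toRingEquiv I
  have h3 : σ.symm.toRingEquiv = σ.toRingEquiv.symm := rfl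
  rw [h3] at h1 ⊢
  rw [h2] at h1
  exact h1.symm

theorem cj_field {x y : AP K Ω 𝔪} (σ : x.F ≃ₐ[K] y.F) : y.F = x.F := by
  have h1 := AlgHom.fieldRange_of_normal (E := x.F) (y.F.val.comp σ.toAlgHom)
  rw [← h1]
  ext z
  constructor
  · intro hz
    exact ⟨σ.symm ⟨z, hz⟩, by simp⟩
  · rintro ⟨w, rfl⟩
    exact (σ w).2

theorem cj_uniq (x y y' : AP K Ω 𝔪) (h : y.F = x.F) (h' : y'.F = x.F) (σ : x.F ≃ₐ[K] y.F) (σ' : x.F ≃ₐ[K] y'.F)
    (hσ : ∀ I : Ideal (𝓞 x.F),
      y.χ.χ (I.map (RingOfIntegers.mapRingEquiv σ.toRingEquiv : 𝓞 x.F ≃+* 𝓞 y.F)) = x.χ.χ I)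
    (hσ' : ∀ I : Ideal (𝓞 x.F),
      y'.χ.χ (I.map (RingOfIntegers.mapRingEquiv σ'.toRingEquiv : 𝓞 x.F ≃+* 𝓞 y'.F)) = x.χ.χ I)
    (hh : σ.trans (IntermediateField.equivOfEq h) = σ'.trans (IntermediateField.equivOfEq h')) : y = y' := by
  obtain ⟨F, nf, gal, deg, χ, quad, triv, non⟩ := y
  obtain ⟨F', nf', gal', deg', χ', quad', triv', non'⟩ := y'
  dsimp only at h h'
  subst h
  have h0 : F' = x.F := h'
  subst h0
  have h1 : σ = σ' := by
    ext z
    have h2 := DFunLike.congr_fun hh z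
    exact congrArg Subtype.val h2
  subst h1
  have h3 : χ.χ = χ'.χ := by
    ext I
    have h4 := hσ (I.map (RingOfIntegers.mapRingEquiv σ.toRingEquiv.symm))
    have h5 := hσ' (I.map (RingOfIntegers.mapRingEquiv σ.toRingEquiv.symm))
    have h6 := mre_symm σ.toRingEquiv I
    rw [← h5] at h4
    dsimp only at h4
    rw [h6] at h4
    exact h4
  have h7 : χ = χ' := by
    cases χ
    cases χ'
    dsimp only at h3
    subst h3
    rfl
  subst h7
  rfl

theorem cj_card (x : AP K Ω 𝔪) (T : Finset (AP K Ω 𝔪)) (hT : ∀ y ∈ T, x.Cj y) : T.card ≤ 3 := by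
  classical
  have hcard : Fintype.card (x.F ≃ₐ[K] x.F) = 3 := by
    have h := IsGalois.card_aut_eq_finrank K x.F
    rw [Nat.card_eq_fintype_card, x.deg] at h
    exact h
  rw [← hcard]
  let f : T → (x.F ≃ₐ[K] x.F) := fun y =>
    (hT y.1 y.2).choose.trans (IntermediateField.equivOfEq (cj_field (hT y.1 y.2).choose))
  have hf : Function.Injective f := by
    intro y y' hyy
    apply Subtype.ext
    exact cj_uniq x y.1 y'.1 (cj_field (hT y.1 y.2).choose) (cj_field (hT y'.1 y'.2).choose)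
      (hT y.1 y.2).choose (hT y'.1 y'.2).choose (hT y.1 y.2).choose_spec (hT y'.1 y'.2).choose_spec hyy
  rw [← Fintype.card_coe]
  exact Fintype.card_le_of_injective f hf

theorem cj_rep (T : Finset (AP K Ω 𝔪)) : ∃ S : Finset (AP K Ω 𝔪), S ⊆ T ∧
    (∀ x ∈ S, ∀ y ∈ S, x ≠ y → ¬ x.Cj y) ∧ T.card ≤ 4 * S.card := by
  classical
  have key : ∃ S : Finset (AP K Ω 𝔪), S ⊆ T ∧ (∀ x ∈ S, ∀ y ∈ S, x ≠ y → ¬ x.Cj y) ∧
      ∀ y ∈ T, ∃ x ∈ S, y = x ∨ x.Cj y := by
    induction T using Finset.induction_on with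
    | empty => exact ⟨∅, by simp, by simp, by simp⟩
    | insert a T0 ha ih =>
      obtain ⟨S, hS1, hS2, hS3⟩ := ih
      by_cases h : ∃ x ∈ S, x.Cj a
      · obtain ⟨x, hx, hxa⟩ := h
        refine ⟨S, hS1.trans (Finset.subset_insert _ _), hS2, fun y hy => ?_⟩
        rcases Finset.mem_insert.1 hy with rfl | hy
        · exact ⟨x, hx, Or.inr hxa⟩
        · exact hS3 y hy
      · push Not at h
        refine ⟨insert a S, Finset.insert_subset_insert _ hS1, ?_, ?_⟩
        · intro x hx y hy hxy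
          rcases Finset.mem_insert.1 hx with hx1 | hx1
          · rcases Finset.mem_insert.1 hy with hy1 | hy1
            · exact absurd (hx1.trans hy1.symm) hxy
            · rw [hx1]
              exact fun hc => h y hy1 (cj_symm hc)
          · rcases Finset.mem_insert.1 hy with hy1 | hy1
            · rw [hy1]
              exact h x hx1
            · exact hS2 x hx1 y hy1 hxy
        · intro y hy
          rcases Finset.mem_insert.1 hy with rfl | hy
          · exact ⟨y, Finset.mem_insert_self _ _, Or.inl rfl⟩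
          · obtain ⟨x, hx, hxy⟩ := hS3 y hy
            exact ⟨x, Finset.mem_insert_of_mem hx, hxy⟩
  obtain ⟨S, hS1, hS2, hS3⟩ := key
  refine ⟨S, hS1, hS2, ?_⟩
  have h1 : T ⊆ S.biUnion fun x => T.filter fun y => y = x ∨ x.Cj y := by
    intro y hy
    obtain ⟨x, hx, hxy⟩ := hS3 y hy
    exact Finset.mem_biUnion.2 ⟨x, hx, Finset.mem_filter.2 ⟨hy, hxy⟩⟩
  refine (Finset.card_le_card h1).trans ?_
  refine Finset.card_biUnion_le.trans ?_
  have h2 : ∀ x ∈ S, (T.filter fun y => y = x ∨ x.Cj y).card ≤ 4 := by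
    intro x _
    have h3 : (T.filter fun y => y = x ∨ x.Cj y) ⊆ insert x (T.filter fun y => x.Cj y) := by
      intro y hy
      obtain ⟨hy1, hy2⟩ := Finset.mem_filter.1 hy
      rcases hy2 with rfl | hy2
      · exact Finset.mem_insert_self _ _
      · exact Finset.mem_insert_of_mem (Finset.mem_filter.2 ⟨hy1, hy2⟩)
    have h4 := cj_card x (T.filter fun y => x.Cj y) fun y hy => (Finset.mem_filter.1 hy).2
    have h5 := Finset.card_insert_le x (T.filter fun y => x.Cj y)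
    have h6 := Finset.card_le_card h3
    omega
  calc ∑ x ∈ S, (T.filter fun y => y = x ∨ x.Cj y).card ≤ ∑ _x ∈ S, 4 := Finset.sum_le_sum h2
    _ = 4 * S.card := by rw [Finset.sum_const, smul_eq_mul, mul_comm]

end H57.LI
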