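import Pool.Agent.H57.LI.AbsFin
import Pool.Agent.H57.LI.PrK
import Pool.Agent.H57.LI.Rep

/-!
# [H57 LI FIN] (LI2) from the correlations and (LI1)
-/

set_option autoImplicit false

open scoped NumberField
open NumberField H63.MA H36.QA

noncomputable section

namespace H57.LI

variable (K Ω : Type) [Field K] [NumberField K] [Field Ω] [Algebra K Ω] (𝔪 : Ideal (𝓞 K))

theorem AP.one_le_D {K Ω : Type} [Field K] [NumberField K] [Field Ω] [Algebra K Ω] {𝔪 : Ideal (𝓞 K)} (x : AP K Ω 𝔪) :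
    1 ≤ x.D := one_le_dd x.F

theorem li2 (hC : CORR K Ω 𝔪) (hL : LI1 K Ω 𝔪) : LI2 K Ω 𝔪 := by
  classical
  obtain ⟨C₁, A₂, δ₁, hC₁, hδ₁, hδ₁', h1⟩ := hC
  obtain ⟨C₂, A₃, δ₂, hC₂, hδ₂, hδ₂', h2⟩ := hL
  intro A₁ B ε hε
  set δ : ℝ := min δ₁ δ₂ with hδd
  have hδ : 0 < δ := lt_min hδ₁ hδ₂
  have hδa : δ ≤ δ₁ := min_le_left _ _
  have hδb : δ ≤ δ₂ := min_le_right _ _
  set A : ℕ := 2 * A₁ * A₂ + A₁ * A₃ + 1 with hAd
  obtain ⟨R₀, hR₀3, hR₀⟩ := absfin (prK K) (A : ℝ) δ (ε / 2) (Nat.cast_nonneg _) hδ (by linarith) (by linarith) B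
  have hbig : ∃ R₁ : ℝ, ∀ R : ℝ, R₁ ≤ R → 4 ≤ R ^ (ε / 2) := by
    have h := (tendsto_rpow_atTop (y := ε / 2) (by linarith)).eventually_ge_atTop 4
    rw [Filter.eventually_atTop] at h
    obtain ⟨a, ha⟩ := h
    exact ⟨a, ha⟩
  obtain ⟨R₁, hR₁⟩ := hbig
  refine ⟨max R₀ (max R₁ (max C₁ C₂)), hR₀3.trans (le_max_left _ _), ?_⟩
  intro R hR J hJ
  have hRR0 : R₀ ≤ R := (le_max_left _ _).trans hR
  have hRR1 : R₁ ≤ R := ((le_max_left _ _).trans (le_max_right _ _)).trans hR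
  have hRC1 : C₁ ≤ R := (((le_max_left _ _).trans (le_max_right _ _)).trans (le_max_right _ _)).trans hR
  have hRC2 : C₂ ≤ R := (((le_max_right _ _).trans (le_max_right _ _)).trans (le_max_right _ _)).trans hR
  have hR1 : 1 ≤ R := by linarith
  have hR0 : 0 < R := by linarith
  have hRe : 0 < R ^ (ε / 2) := Real.rpow_pos_of_pos hR0 _
  -- the bound for a finite subset
  have key : ∀ T : Finset (AP K Ω 𝔪), (T : Set (AP K Ω 𝔪)) ⊆ J → (T.card : ℝ) ≤ R ^ ε := by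
    intro T hT
    obtain ⟨S, hS1, hS2, hS3⟩ := cj_rep T
    have hSJ : ∀ x ∈ S, x ∈ J := fun x hx => hT (hS1 hx)
    have h3 := hR₀ R hRR0 S (fun x => x.1.lam) (fun x l => lam_le x.1 l) ?_ ?_ ?_
    · rw [Fintype.card_coe] at h3
      have h4 : (T.card : ℝ) ≤ 4 * S.card := by exact_mod_cast hS3
      have h5 := hR₁ R hRR1
      calc (T.card : ℝ) ≤ 4 * S.card := h4
        _ ≤ R ^ (ε / 2) * R ^ (ε / 2) := mul_le_mul h5 h3 (Nat.cast_nonneg _) hRe.le
        _ = R ^ ε := by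
          rw [← Real.rpow_add hR0]
          congr 1
          ring
    · intro x y hxy Y hY
      have hY0 : 0 < Y := by linarith
      have h4 : ¬ x.1.Cj y.1 := hS2 x.1 x.2 y.1 y.2 fun h => hxy (Subtype.ext h)
      have h5 := h1 x.1 y.1 h4 Y hY
      rw [sum_lq2 x.1 y.1 Y hY0.le] at h5
      refine h5.trans ?_
      have hx := (hJ x.1 (hSJ x.1 x.2)).1
      have hy := (hJ y.1 (hSJ y.1 y.2)).1
      have hx1 := x.1.one_le_D
      have hy1 := y.1.one_le_D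
      have h6 : (x.1.D * y.1.D) ^ A₂ ≤ R ^ (2 * A₁ * A₂) := by
        calc (x.1.D * y.1.D) ^ A₂ ≤ (R ^ A₁ * R ^ A₁) ^ A₂ :=
              pow_le_pow_left₀ (by positivity) (mul_le_mul hx hy (by linarith) (by positivity)) A₂
          _ = R ^ (2 * A₁ * A₂) := by
            rw [← pow_add, ← pow_mul]
            congr 1
            ring
      have h7 : Y ^ (1 - δ₁) ≤ Y ^ (1 - δ) := Real.rpow_le_rpow_of_exponent_le hY (by linarith)
      have h8 : C₁ * (x.1.D * y.1.D) ^ A₂ ≤ R ^ (A : ℝ) := by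
        rw [Real.rpow_natCast]
        calc C₁ * (x.1.D * y.1.D) ^ A₂ ≤ R * R ^ (2 * A₁ * A₂) :=
              mul_le_mul hRC1 h6 (by positivity) hR0.le
          _ = R ^ (2 * A₁ * A₂ + 1) := by rw [pow_succ]; ring
          _ ≤ R ^ A := pow_le_pow_right₀ hR1 (by omega)
      exact mul_le_mul h8 h7 (by positivity) (by positivity)
    · intro x Y hY
      have hY0 : 0 < Y := by linarith
      have h5 := h2 x.1 Y hY
      rw [sum_lq x.1 Y hY0.le] at h5
      refine h5.trans ?_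
      have hx := (hJ x.1 (hSJ x.1 x.2)).1
      have hx1 := x.1.one_le_D
      have h6 : x.1.D ^ A₃ ≤ R ^ (A₁ * A₃) := by
        rw [pow_mul]
        exact pow_le_pow_left₀ (by linarith) hx A₃
      have h7 : Y ^ (1 - δ₂) ≤ Y ^ (1 - δ) := Real.rpow_le_rpow_of_exponent_le hY (by linarith)
      have h8 : C₂ * x.1.D ^ A₃ ≤ R ^ (A : ℝ) := by
        rw [Real.rpow_natCast]
        calc C₂ * x.1.D ^ A₃ ≤ R * R ^ (A₁ * A₃) := mul_le_mul hRC2 h6 (by positivity) hR0.le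
          _ = R ^ (A₁ * A₃ + 1) := by rw [pow_succ]; ring
          _ ≤ R ^ A := pow_le_pow_right₀ hR1 (by omega)
      exact mul_le_mul h8 h7 (by positivity) (by positivity)
    · intro x
      obtain ⟨Y, hY1, hY2⟩ := (hJ x.1 (hSJ x.1 x.2)).2
      refine ⟨Y, hY1, ?_⟩
      rwa [sum_lq x.1 Y ((Real.exp_pos _).le.trans hY1)] at hY2
  have hfin : J.Finite := by
    by_contra hinf
    obtain ⟨T, hT, hTc⟩ := Set.Infinite.exists_subset_card_eq hinf (⌊R ^ ε⌋₊ + 1)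
    have h3 := key T hT
    rw [hTc] at h3
    have h4 := Nat.lt_floor_add_one (R ^ ε)
    push_cast at h3
    linarith
  refine ⟨hfin, ?_⟩
  have h3 := key hfin.toFinset (by rw [Set.Finite.coe_toFinset])
  rwa [← Set.ncard_eq_toFinset_card J hfin] at h3

end H57.LI
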