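import Pool.Agent.H57.LI.Abs

/-!
# [H57 LI SFK] Weighted harmonic sums over the squarefree products (50-90 lines)

`sfk`: induction on `k`. `k = 0`: only `s = ∅` contributes (`(0 : ℝ) ^ s.card`), value `1` (`∅ ∈ p.SF Z`). Step:
`(k + 1) ^ s.card = ∑ t ∈ s.powerset, k ^ t.card` (`Finset.sum_pow_mul_eq_add_pow` or `Finset.prod_add`), and `s ↦ (t, s \ t)` is
injective with values in `p.SF Z × p.SF Z` (`nn s = nn t * nn (s \ t)`, both factors are `≥ 1`):
`∑_s (k+1)^|s| / nn s = ∑_s ∑_{t ⊆ s} (k^|t| / nn t) (1 / nn (s \ t)) ≤ (∑_t k^|t| / nn t) (∑_u 1 / nn u)`, and `p.har` for `u`.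
`sfk_card`: `∑ k^|s| ≤ Z ∑ k^|s| / nn s`.
`sum_inv`: `∑ i ∈ p.P T, 1 / N i ≤ n (1 + log T)`: fibres of `N` over `m ∈ {1, .., ⌊T⌋}`, `p.mul`, and
`∑_{m ≤ T} 1 / m ≤ 1 + log T` (Mathlib: `harmonic_floor_le_one_add_log`).
`card_P`: number of primes with `a < N i ≤ b` is at most `n (b - a + 1)` for `0 ≤ a ≤ b`: there are at most
`b - a + 1` natural numbers in `(a, b]`.
-/

set_option autoImplicit false

noncomputable section

namespace H57.LI

variable {ι : Type} (p : Pr ι)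

theorem Pr.sfk (k : ℕ) (Z : ℝ) (hZ : 2 ≤ Z) :
    ∑ s ∈ p.SF Z, (k : ℝ) ^ s.card / p.nn s ≤ (p.C * Real.log Z ^ p.n) ^ k := by
  classical
  have hC := p.C1
  have hlog : 0 ≤ Real.log Z := Real.log_nonneg (by linarith)
  have hB : 0 ≤ p.C * Real.log Z ^ p.n := mul_nonneg (by linarith) (pow_nonneg hlog _)
  induction k with
  | zero =>
    have h : ∑ s ∈ p.SF Z, ((0 : ℕ) : ℝ) ^ s.card / p.nn s = 1 := by
      rw [Finset.sum_eq_single ∅]
      · simp [Pr.nn]
      · intro s _ hs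
        have h1 : s.card ≠ 0 := by simpa using hs
        rw [Nat.cast_zero, zero_pow h1, zero_div]
      · intro h
        refine absurd (p.mem_SF.2 ?_) h
        have : p.nn ∅ = 1 := by simp [Pr.nn]
        rw [this]
        linarith
    rw [h, pow_zero]
  | succ k ih =>
    have hpow : ∀ s : Finset ι, ((k + 1 : ℕ) : ℝ) ^ s.card = ∑ t ∈ s.powerset, (k : ℝ) ^ t.card := by
      intro s
      have h := Finset.sum_pow_mul_eq_add_pow (k : ℝ) 1 s
      simp only [one_pow, mul_one] at h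
      rw [h]
      push_cast
      rfl
    have hnn : ∀ s t : Finset ι, t ⊆ s → p.nn s = p.nn t * p.nn (s \ t) := by
      intro s t hts
      unfold Pr.nn
      rw [mul_comm, Finset.prod_sdiff hts]
    have har := p.har Z hZ (p.SF Z) (fun s hs => p.mem_SF.1 hs)
    calc ∑ s ∈ p.SF Z, ((k + 1 : ℕ) : ℝ) ^ s.card / p.nn s
        = ∑ s ∈ p.SF Z, ∑ t ∈ s.powerset, (k : ℝ) ^ t.card / p.nn t * (1 / p.nn (s \ t)) := by
          refine Finset.sum_congr rfl fun s _ => ?_
          rw [hpow, Finset.sum_div]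
          refine Finset.sum_congr rfl fun t ht => ?_
          rw [hnn s t (Finset.mem_powerset.1 ht)]
          have h1 := (p.nn_pos t).ne'
          have h2 := (p.nn_pos (s \ t)).ne'
          field_simp
      _ = ∑ x ∈ (p.SF Z).sigma (fun s => s.powerset),
            (k : ℝ) ^ x.2.card / p.nn x.2 * (1 / p.nn (x.1 \ x.2)) := by
          rw [Finset.sum_sigma]
      _ = ∑ y ∈ ((p.SF Z).sigma (fun s => s.powerset)).image (fun x => (x.2, x.1 \ x.2)),
            (k : ℝ) ^ y.1.card / p.nn y.1 * (1 / p.nn y.2) := by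
          rw [Finset.sum_image]
          rintro ⟨s, t⟩ hx ⟨s', t'⟩ hy hxy
          simp only [Finset.coe_sigma, Set.mem_sigma_iff, Finset.mem_coe, Finset.mem_powerset] at hx hy
          simp only [Prod.mk.injEq] at hxy
          obtain ⟨h1, h2⟩ := hxy
          subst h1
          have h3 : s = s' := by
            rw [← Finset.sdiff_union_of_subset hx.2, ← Finset.sdiff_union_of_subset hy.2, h2]
          subst h3
          rfl
      _ ≤ ∑ y ∈ (p.SF Z) ×ˢ (p.SF Z), (k : ℝ) ^ y.1.card / p.nn y.1 * (1 / p.nn y.2) := by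
          refine Finset.sum_le_sum_of_subset_of_nonneg ?_ ?_
          · intro y hy
            rw [Finset.mem_image] at hy
            obtain ⟨⟨s, t⟩, hx, rfl⟩ := hy
            rw [Finset.mem_sigma] at hx
            obtain ⟨hs, ht⟩ := hx
            simp only [Finset.mem_powerset] at ht
            have hs' := p.mem_SF.1 hs
            simp only at hs'
            have h1 := hnn s t ht
            have h2 := p.one_le_nn t
            have h3 := p.one_le_nn (s \ t)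
            rw [Finset.mem_product]
            refine ⟨p.mem_SF.2 ?_, p.mem_SF.2 ?_⟩
            · simp only
              nlinarith
            · simp only
              nlinarith
          · intro y _ _
            have h1 := p.nn_pos y.1
            have h2 := p.nn_pos y.2
            positivity
      _ = (∑ t ∈ p.SF Z, (k : ℝ) ^ t.card / p.nn t) * ∑ u ∈ p.SF Z, 1 / p.nn u := by
          rw [Finset.sum_product, Finset.sum_mul_sum]
      _ ≤ (p.C * Real.log Z ^ p.n) ^ k * (p.C * Real.log Z ^ p.n) := by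
          refine mul_le_mul ih har ?_ (pow_nonneg hB _)
          exact Finset.sum_nonneg fun u _ => by
            have := p.nn_pos u
            positivity
      _ = (p.C * Real.log Z ^ p.n) ^ (k + 1) := by rw [pow_succ]

theorem Pr.sfk_card (k : ℕ) (Z : ℝ) (hZ : 2 ≤ Z) :
    ∑ s ∈ p.SF Z, (k : ℝ) ^ s.card ≤ Z * (p.C * Real.log Z ^ p.n) ^ k := by
  calc ∑ s ∈ p.SF Z, (k : ℝ) ^ s.card ≤ ∑ s ∈ p.SF Z, Z * ((k : ℝ) ^ s.card / p.nn s) := by
        refine Finset.sum_le_sum fun s hs => ?_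
        have h1 := p.mem_SF.1 hs
        have h2 := p.nn_pos s
        have h3 : (0 : ℝ) ≤ (k : ℝ) ^ s.card := by positivity
        rw [mul_div_assoc', le_div_iff₀ h2]
        nlinarith
    _ = Z * ∑ s ∈ p.SF Z, (k : ℝ) ^ s.card / p.nn s := by rw [Finset.mul_sum]
    _ ≤ Z * (p.C * Real.log Z ^ p.n) ^ k := mul_le_mul_of_nonneg_left (p.sfk k Z hZ) (by linarith)

theorem Pr.sum_inv (T : ℝ) (hT : 1 ≤ T) : ∑ i ∈ p.P T, 1 / (p.N i : ℝ) ≤ p.n * (1 + Real.log T) := by
  classical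
  have hmaps : ∀ i ∈ p.P T, p.N i ∈ Finset.Icc 1 ⌊T⌋₊ := by
    intro i hi
    rw [Finset.mem_Icc]
    have h2 := p.two i
    exact ⟨by omega, Nat.le_floor (p.mem_P.1 hi)⟩
  rw [← Finset.sum_fiberwise_of_maps_to hmaps]
  have hfib : ∀ m ∈ Finset.Icc 1 ⌊T⌋₊,
      ∑ i ∈ (p.P T).filter (fun i => p.N i = m), 1 / (p.N i : ℝ) ≤ p.n * (m : ℝ)⁻¹ := by
    intro m hm
    have h1 : ∑ i ∈ (p.P T).filter (fun i => p.N i = m), 1 / (p.N i : ℝ)
        = ∑ i ∈ (p.P T).filter (fun i => p.N i = m), (m : ℝ)⁻¹ := by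
      refine Finset.sum_congr rfl fun i hi => ?_
      rw [(Finset.mem_filter.1 hi).2, one_div]
    rw [h1, Finset.sum_const, nsmul_eq_mul]
    refine mul_le_mul_of_nonneg_right ?_ (by positivity)
    have h2 : ((p.P T).filter (fun i => p.N i = m)).card ≤ p.n := by
      rw [← Set.ncard_coe_finset]
      refine (Set.ncard_le_ncard ?_ (p.fin m)).trans (p.mul m)
      intro i hi
      exact (Finset.mem_filter.1 (Finset.mem_coe.1 hi)).2
    exact_mod_cast h2
  refine (Finset.sum_le_sum hfib).trans ?_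
  rw [← Finset.mul_sum]
  refine mul_le_mul_of_nonneg_left ?_ (Nat.cast_nonneg _)
  have h := harmonic_floor_le_one_add_log T hT
  rw [harmonic_eq_sum_Icc] at h
  push_cast at h
  exact h

theorem Pr.card_P (a b : ℝ) (ha : 0 ≤ a) (hab : a ≤ b) :
    (((p.P b).filter fun i => a < (p.N i : ℝ)).card : ℝ) ≤ p.n * (b - a + 1) := by
  classical
  have hmaps : ∀ i ∈ (p.P b).filter (fun i => a < (p.N i : ℝ)), p.N i ∈ Finset.Ioc ⌊a⌋₊ ⌊b⌋₊ := by
    intro i hi
    rw [Finset.mem_filter] at hi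
    rw [Finset.mem_Ioc]
    refine ⟨(Nat.floor_lt ha).2 hi.2, Nat.le_floor (p.mem_P.1 hi.1)⟩
  have hfib : ∀ m ∈ Finset.Ioc ⌊a⌋₊ ⌊b⌋₊,
      (((p.P b).filter (fun i => a < (p.N i : ℝ))).filter (fun i => p.N i = m)).card ≤ p.n := by
    intro m hm
    rw [← Set.ncard_coe_finset]
    refine (Set.ncard_le_ncard ?_ (p.fin m)).trans (p.mul m)
    intro i hi
    exact (Finset.mem_filter.1 (Finset.mem_coe.1 hi)).2
  have h1 := Finset.card_le_mul_card_image_of_maps_to hmaps p.n hfib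
  have h2 : (Finset.Ioc ⌊a⌋₊ ⌊b⌋₊).card = ⌊b⌋₊ - ⌊a⌋₊ := Nat.card_Ioc _ _
  rw [h2] at h1
  have h3 : ⌊a⌋₊ ≤ ⌊b⌋₊ := Nat.floor_mono hab
  have h4 : ((⌊b⌋₊ - ⌊a⌋₊ : ℕ) : ℝ) = (⌊b⌋₊ : ℝ) - (⌊a⌋₊ : ℝ) := by
    rw [Nat.cast_sub h3]
  have h5 : (⌊b⌋₊ : ℝ) ≤ b := Nat.floor_le (by linarith)
  have h6 : a < (⌊a⌋₊ : ℝ) + 1 := Nat.lt_floor_add_one a
  have h7 : (((p.P b).filter fun i => a < (p.N i : ℝ)).card : ℝ) ≤ (p.n : ℝ) * ((⌊b⌋₊ - ⌊a⌋₊ : ℕ) : ℝ) := by
    exact_mod_cast h1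
  refine h7.trans (mul_le_mul_of_nonneg_left ?_ (Nat.cast_nonneg _))
  rw [h4]
  linarith

end H57.LI
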