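import Pool.Agent.H57.LI.Rsm

/-!
# [H57 LI SQP] From the primes to the squarefree products (150-250 lines)

Let `L = log R`, `T = L^A'`, `B₁ = B + 3 n + 2`. For a finite set `s` of primes let `b s = {i ∈ s : T < N i}`.

`sqp_id` (exact identity): `∑_{s ∈ SF Y, b s ≠ ∅} pd f s = ∑_{t ∈ SF Y} pd f t / (|b t| + 1) * ∑_{l ∉ t, T < N l ≤ Y / nn t} f l`. Proof:
`pd f s = (1 / |b s|) ∑_{l ∈ b s} f l * pd f (s.erase l)`, then the bijection `(s, l) ↦ (s.erase l, l)`, inverse `(t, l) ↦ insert l t`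
(`Finset.sum_bij'` over `Finset.sigma`), `|b s| = |b t| + 1`, `nn s = N l * nn t`.

`sqp`: `SS f Y` = smooth part + the left side of `sqp_id`. Smooth part: `|pd f s| ≤ 3^|s|`, `rsm` with `B + 1`. For `t ∈ SF Y`: if
`Y / nn t < T` the inner sum is empty. If `Y / nn t ≥ T` it is `S1 (Y / nn t) - S1 T - ∑_{l ∈ t, T < N l ≤ Y / nn t} f l`, at most
`2 (Y / nn t) / L^B₁ + 3 |t|`, and `|t| ≤ log Y / log 2 ≤ 2 C0 L` (`2^|t| ≤ nn t ≤ Y ≤ R^C0`), `L^A' ≤ Y / nn t`, `A' ≥ B₁ + 2`: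
`3 |t| ≤ (Y / nn t) / L^B₁` for large `R`. So the sum is at most `3 Y / L^B₁ * ∑_t 3^|t| / nn t ≤ 3 Y (C (C0 L)^n)^3 / L^B₁` (`sfk`,
`k = 3`, `log Y ≤ C0 L`) `≤ Y / L^(B+1)` for large `R`.
-/

set_option autoImplicit false

noncomputable section

namespace H57.LI

variable {ι : Type} (p : Pr ι)

open Classical in
theorem sqp_id (f : ι → ℝ) (T Y : ℝ) (hT : 1 ≤ T) (hY : 1 ≤ Y) :
    ∑ s ∈ (p.SF Y).filter (fun s => ¬ ∀ i ∈ s, (p.N i : ℝ) ≤ T), pd f s =
      ∑ t ∈ p.SF Y, pd f t / (((t.filter fun i => T < (p.N i : ℝ)).card : ℝ) + 1) *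
        ∑ l ∈ (p.P (Y / p.nn t)).filter (fun l => T < (p.N l : ℝ) ∧ l ∉ t), f l := by
  have hL : ∀ s ∈ (p.SF Y).filter (fun s => ¬ ∀ i ∈ s, (p.N i : ℝ) ≤ T),
      pd f s = ∑ _l ∈ s.filter (fun i => T < (p.N i : ℝ)),
        pd f s / ((s.filter (fun i => T < (p.N i : ℝ))).card : ℝ) := by
    intro s hs
    rw [Finset.mem_filter] at hs
    have h2 := hs.2
    push Not at h2
    obtain ⟨i, hi, hTi⟩ := h2
    have hc : ((s.filter (fun i => T < (p.N i : ℝ))).card : ℝ) ≠ 0 := by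
      have : 0 < (s.filter (fun i => T < (p.N i : ℝ))).card :=
        Finset.card_pos.2 ⟨i, Finset.mem_filter.2 ⟨hi, hTi⟩⟩
      exact_mod_cast this.ne'
    rw [Finset.sum_const, nsmul_eq_mul, mul_div_cancel₀ _ hc]
  rw [Finset.sum_congr rfl hL]
  simp_rw [Finset.mul_sum]
  rw [Finset.sum_sigma', Finset.sum_sigma']
  have hnn : ∀ (t : Finset ι) (l : ι), l ∉ t → p.nn (insert l t) = p.N l * p.nn t := by
    intro t l hl
    unfold Pr.nn
    rw [Finset.prod_insert hl]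
  refine Finset.sum_bij' (fun x _ => ⟨x.1.erase x.2, x.2⟩) (fun x _ => ⟨insert x.2 x.1, x.2⟩)
    ?_ ?_ ?_ ?_ ?_
  · rintro ⟨s, l⟩ hx
    simp only [Finset.mem_sigma, Finset.mem_filter] at hx ⊢
    obtain ⟨⟨hs, -⟩, hl, hTl⟩ := hx
    have hle : p.nn s = p.N l * p.nn (s.erase l) := by
      rw [← hnn _ _ (Finset.notMem_erase l s), Finset.insert_erase hl]
    have hsY := (p.mem_SF).1 hs
    have h1 := p.nn_pos (s.erase l)
    have h2 := p.one_le l
    refine ⟨(p.mem_SF).2 ?_, (p.mem_P).2 ?_, hTl, Finset.notMem_erase l s⟩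
    · nlinarith
    · rw [le_div_iff₀ h1]
      linarith
  · rintro ⟨t, l⟩ hx
    simp only [Finset.mem_sigma, Finset.mem_filter] at hx ⊢
    obtain ⟨ht, hl, hTl, hlt⟩ := hx
    have h1 := p.nn_pos t
    have h2 := (p.mem_P).1 hl
    rw [le_div_iff₀ h1] at h2
    refine ⟨⟨(p.mem_SF).2 ?_, ?_⟩, Finset.mem_insert_self l t, hTl⟩
    · rw [hnn t l hlt]; exact h2
    · push Not
      exact ⟨l, Finset.mem_insert_self l t, hTl⟩
  · rintro ⟨s, l⟩ hx
    simp only [Finset.mem_sigma, Finset.mem_filter] at hx ⊢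
    rw [Finset.insert_erase hx.2.1]
  · rintro ⟨t, l⟩ hx
    simp only [Finset.mem_sigma, Finset.mem_filter] at hx ⊢
    rw [Finset.erase_insert hx.2.2.2]
  · rintro ⟨s, l⟩ hx
    simp only [Finset.mem_sigma, Finset.mem_filter] at hx ⊢
    obtain ⟨⟨hs, -⟩, hl, hTl⟩ := hx
    have hpd : pd f s = f l * pd f (s.erase l) := by
      unfold pd
      rw [Finset.mul_prod_erase s f hl]
    have hcard : (s.filter (fun i => T < (p.N i : ℝ))).card =
        ((s.erase l).filter (fun i => T < (p.N i : ℝ))).card + 1 := by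
      rw [Finset.filter_erase, Finset.card_erase_add_one (Finset.mem_filter.2 ⟨hl, hTl⟩)]
    rw [hpd, hcard]
    push_cast
    ring

private theorem abs_pd (f : ι → ℝ) (h3 : ∀ i, |f i| ≤ 3) (s : Finset ι) : |pd f s| ≤ 3 ^ s.card := by
  unfold pd
  rw [Finset.abs_prod]
  calc ∏ i ∈ s, |f i| ≤ ∏ _i ∈ s, (3 : ℝ) := Finset.prod_le_prod (fun i _ => abs_nonneg _) (fun i _ => h3 i)
    _ = 3 ^ s.card := by rw [Finset.prod_const]

private theorem card_le (t : Finset ι) : (2 : ℝ) ^ t.card ≤ p.nn t := by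
  unfold Pr.nn
  rw [← Finset.prod_const]
  exact Finset.prod_le_prod (fun _ _ => by norm_num) (fun i _ => p.two_le i)

private theorem card_log (t : Finset ι) {Y X : ℝ} (ht : p.nn t ≤ Y) (hX : Real.log Y ≤ X) :
    (t.card : ℝ) ≤ 2 * X := by
  have h1 := card_le p t
  have hpos := p.nn_pos t
  have h2 : (t.card : ℝ) * Real.log 2 ≤ Real.log Y := by
    rw [← Real.log_pow]
    exact Real.log_le_log (by positivity) (h1.trans ht)
  have h3 : (1 : ℝ) / 2 < Real.log 2 := by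
    have := Real.log_two_gt_d9; linarith
  have h4 : (0 : ℝ) ≤ t.card := by positivity
  nlinarith

open Classical in
private theorem inner_bd (f : ι → ℝ) (h3 : ∀ i, |f i| ≤ 3) {T Y U L : ℝ} {B₁ : ℕ} (hL : 1 ≤ L)
    (hT1 : 1 ≤ T) (hTL : T = U) (t : Finset ι) (htY : p.nn t ≤ Y) (X : ℝ)
    (hS : ∀ x : ℝ, T ≤ x → x ≤ Y → |p.S1 f x| ≤ x / L ^ B₁)
    (hX : Real.log Y ≤ X) (h6 : 6 * X ≤ T / L ^ B₁) :
    |∑ l ∈ (p.P (Y / p.nn t)).filter (fun l => T < (p.N l : ℝ) ∧ l ∉ t), f l| ≤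
      3 * (Y / p.nn t) / L ^ B₁ := by
  have hn1 := p.one_le_nn t
  have hn0 := p.nn_pos t
  have hY0 : 0 < Y := lt_of_lt_of_le hn0 htY
  have hLp : 0 < L ^ B₁ := by positivity
  have hdiv : Y / p.nn t ≤ Y := div_le_self hY0.le hn1
  have hd0 : 0 < Y / p.nn t := by positivity
  by_cases hc : Y / p.nn t < T
  · have hemp : (p.P (Y / p.nn t)).filter (fun l => T < (p.N l : ℝ) ∧ l ∉ t) = ∅ := by
      apply Finset.filter_eq_empty_iff.2
      intro l hl hh
      have := (p.mem_P).1 hl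
      linarith [hh.1]
    rw [hemp, Finset.sum_empty, abs_zero]
    positivity
  · push Not at hc
    have hsub : p.P T ⊆ p.P (Y / p.nn t) := fun i hi => (p.mem_P).2 (((p.mem_P).1 hi).trans hc)
    have hdec : ∑ l ∈ (p.P (Y / p.nn t)).filter (fun l => T < (p.N l : ℝ) ∧ l ∉ t), f l =
        p.S1 f (Y / p.nn t) - p.S1 f T -
          ∑ l ∈ (p.P (Y / p.nn t)).filter (fun l => T < (p.N l : ℝ) ∧ l ∈ t), f l := by
      have e1 : p.S1 f (Y / p.nn t) = p.S1 f T + ∑ l ∈ (p.P (Y / p.nn t)).filter (fun l => T < (p.N l : ℝ)), f l := by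
        unfold Pr.S1
        rw [← Finset.sum_filter_add_sum_filter_not (p.P (Y / p.nn t)) (fun l => (p.N l : ℝ) ≤ T)]
        congr 1
        · refine Finset.sum_congr ?_ fun _ _ => rfl
          ext i
          rw [Finset.mem_filter]
          exact ⟨fun h => (p.mem_P).2 h.2, fun h => ⟨hsub h, (p.mem_P).1 h⟩⟩
        · refine Finset.sum_congr ?_ fun _ _ => rfl
          ext i
          rw [Finset.mem_filter, Finset.mem_filter, not_le]
      have e2 : ∑ l ∈ (p.P (Y / p.nn t)).filter (fun l => T < (p.N l : ℝ)), f l =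
          ∑ l ∈ (p.P (Y / p.nn t)).filter (fun l => T < (p.N l : ℝ) ∧ l ∈ t), f l +
          ∑ l ∈ (p.P (Y / p.nn t)).filter (fun l => T < (p.N l : ℝ) ∧ l ∉ t), f l := by
        rw [← Finset.sum_filter_add_sum_filter_not _ (fun l => l ∈ t), Finset.filter_filter,
          Finset.filter_filter]
      linarith
    rw [hdec]
    have b1 := hS (Y / p.nn t) hc hdiv
    have b2 := hS T le_rfl (hc.trans hdiv)
    have b3 : |∑ l ∈ (p.P (Y / p.nn t)).filter (fun l => T < (p.N l : ℝ) ∧ l ∈ t), f l| ≤ 3 * t.card := by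
      refine (Finset.abs_sum_le_sum_abs _ _).trans ?_
      refine (Finset.sum_le_sum (fun i _ => h3 i)).trans ?_
      rw [Finset.sum_const, nsmul_eq_mul, mul_comm]
      refine mul_le_mul_of_nonneg_left ?_ (by norm_num)
      have hc2 : ((p.P (Y / p.nn t)).filter (fun l => T < (p.N l : ℝ) ∧ l ∈ t)).card ≤ t.card :=
        Finset.card_le_card (fun i hi => (Finset.mem_filter.1 hi).2.2)
      exact_mod_cast hc2
    have b4 := card_log p t htY hX
    have b5 : T / L ^ B₁ ≤ (Y / p.nn t) / L ^ B₁ := div_le_div_of_nonneg_right hc hLp.le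
    have e3 : 3 * (Y / p.nn t) / L ^ B₁ = (Y / p.nn t) / L ^ B₁ + (Y / p.nn t) / L ^ B₁ + (Y / p.nn t) / L ^ B₁ := by
      ring
    rw [e3]
    have t1 := abs_sub (p.S1 f (Y / p.nn t) - p.S1 f T)
      (∑ l ∈ (p.P (Y / p.nn t)).filter (fun l => T < (p.N l : ℝ) ∧ l ∈ t), f l)
    have t2 := abs_sub (p.S1 f (Y / p.nn t)) (p.S1 f T)
    linarith

theorem sqp (B A' : ℕ) (hA : B + 3 * p.n + 4 ≤ A') (C0 : ℝ) (hC0 : 1 ≤ C0) : ∃ R₀ : ℝ, 3 ≤ R₀ ∧ ∀ R : ℝ, R₀ ≤ R →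
    ∀ f : ι → ℝ, (∀ i, |f i| ≤ 3) →
      (∀ x : ℝ, Real.log R ^ A' ≤ x → x ≤ R ^ C0 → |p.S1 f x| ≤ x / Real.log R ^ (B + 3 * p.n + 2)) →
      ∀ Y : ℝ, Real.exp (Real.log (Real.log R) ^ 3) ≤ Y → Y ≤ R ^ C0 → |p.SS f Y| ≤ Y / Real.log R ^ B := by
  classical
  obtain ⟨R1, hR1, hsm⟩ := rsm p A' (B + 1) (by omega)
  set K : ℝ := 3 * (p.C * C0 ^ p.n) ^ 3 with hK
  have hC1 := p.C1
  have hK0 : 0 < K := by positivity
  set M : ℝ := 3 + 6 * C0 + 2 * K with hM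
  refine ⟨max R1 (Real.exp M), hR1.trans (le_max_left _ _), ?_⟩
  intro R hR f h3 hS Y hY1 hY2
  have hRR1 : R1 ≤ R := (le_max_left _ _).trans hR
  have hRM : Real.exp M ≤ R := (le_max_right _ _).trans hR
  have hR0 : 0 < R := lt_of_lt_of_le (Real.exp_pos _) hRM
  set L : ℝ := Real.log R with hLdef
  have hLM : M ≤ L := by
    rw [hLdef, Real.le_log_iff_exp_le hR0]; exact hRM
  have hL3 : 3 ≤ L := by
    have : 3 ≤ M := by rw [hM]; nlinarith
    linarith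
  have hL1 : 1 ≤ L := by linarith
  have hL0 : 0 < L := by linarith
  have hlogL : 1 ≤ Real.log L := by
    rw [Real.le_log_iff_exp_le hL0]
    have := Real.exp_one_lt_d9
    linarith
  have hY2' : 2 ≤ Y := by
    have h1 : (1 : ℝ) ≤ Real.log L ^ 3 := one_le_pow₀ hlogL
    have h2 : Real.exp 1 ≤ Real.exp (Real.log L ^ 3) := Real.exp_le_exp.2 h1
    have h4 := Real.exp_one_gt_d9
    linarith
  have hY0 : 0 < Y := by linarith
  have hlogY : Real.log Y ≤ C0 * L := by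
    have h1 := Real.log_le_log hY0 hY2
    rwa [Real.log_rpow hR0] at h1
  set T : ℝ := L ^ A' with hTdef
  set B₁ : ℕ := B + 3 * p.n + 2 with hB1
  have hT1 : 1 ≤ T := one_le_pow₀ hL1
  have hLB : 0 < L ^ B₁ := by positivity
  have h6 : 6 * (C0 * L) ≤ T / L ^ B₁ := by
    rw [le_div_iff₀ hLB]
    have e1 : L ^ (B₁ + 2) ≤ T := pow_le_pow_right₀ hL1 (by omega)
    have e2 : 6 * C0 ≤ L := by
      have : 6 * C0 ≤ M := by rw [hM]; nlinarith
      linarith
    calc 6 * (C0 * L) * L ^ B₁ = (6 * C0) * (L * L ^ B₁) := by ring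
      _ ≤ L * (L * L ^ B₁) := mul_le_mul_of_nonneg_right e2 (by positivity)
      _ = L ^ (B₁ + 2) := by ring
      _ ≤ T := e1
  -- the two parts
  have hsplit : p.SS f Y = ∑ s ∈ (p.SF Y).filter (fun s => ∀ i ∈ s, (p.N i : ℝ) ≤ T), pd f s +
      ∑ s ∈ (p.SF Y).filter (fun s => ¬ ∀ i ∈ s, (p.N i : ℝ) ≤ T), pd f s := by
    unfold Pr.SS
    rw [Finset.sum_filter_add_sum_filter_not]
  have hsmooth : |∑ s ∈ (p.SF Y).filter (fun s => ∀ i ∈ s, (p.N i : ℝ) ≤ T), pd f s| ≤ Y / L ^ (B + 1) := by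
    refine (Finset.abs_sum_le_sum_abs _ _).trans ?_
    refine (Finset.sum_le_sum (fun s _ => abs_pd f h3 s)).trans ?_
    convert hsm R hRR1 Y hY1 using 2
  have hns : |∑ s ∈ (p.SF Y).filter (fun s => ¬ ∀ i ∈ s, (p.N i : ℝ) ≤ T), pd f s| ≤
      K * Y / L ^ (B + 2) := by
    have hid := sqp_id p f T Y hT1 (by linarith)
    have hid' : ∑ s ∈ (p.SF Y).filter (fun s => ¬ ∀ i ∈ s, (p.N i : ℝ) ≤ T), pd f s =
      ∑ t ∈ p.SF Y, pd f t / (((t.filter fun i => T < (p.N i : ℝ)).card : ℝ) + 1) *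
        ∑ l ∈ (p.P (Y / p.nn t)).filter (fun l => T < (p.N l : ℝ) ∧ l ∉ t), f l := by
      convert hid using 2
    rw [hid']
    refine (Finset.abs_sum_le_sum_abs _ _).trans ?_
    have hterm : ∀ t ∈ p.SF Y, |pd f t / (((t.filter fun i => T < (p.N i : ℝ)).card : ℝ) + 1) *
        ∑ l ∈ (p.P (Y / p.nn t)).filter (fun l => T < (p.N l : ℝ) ∧ l ∉ t), f l| ≤
        3 * Y / L ^ B₁ * ((3 : ℝ) ^ t.card / p.nn t) := by
      intro t ht
      have htY := (p.mem_SF).1 ht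
      have hi := inner_bd p f h3 (T := T) (Y := Y) (U := T) (L := L) (B₁ := B₁) hL1 hT1 rfl t htY (C0 * L)
        (fun x hx hxY => hS x hx (hxY.trans hY2)) hlogY h6
      have hn0 := p.nn_pos t
      rw [abs_mul, abs_div]
      have hden : (1 : ℝ) ≤ |((t.filter fun i => T < (p.N i : ℝ)).card : ℝ) + 1| := by
        rw [abs_of_nonneg (by positivity)]
        have : (0 : ℝ) ≤ ((t.filter fun i => T < (p.N i : ℝ)).card : ℝ) := by positivity
        linarith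
      have h1 : |pd f t| / |((t.filter fun i => T < (p.N i : ℝ)).card : ℝ) + 1| ≤ 3 ^ t.card :=
        (div_le_self (abs_nonneg _) hden).trans (abs_pd f h3 t)
      have h2 : 3 * Y / L ^ B₁ * ((3 : ℝ) ^ t.card / p.nn t) = 3 ^ t.card * (3 * (Y / p.nn t) / L ^ B₁) := by
        ring
      rw [h2]
      exact mul_le_mul h1 hi (abs_nonneg _) (by positivity)
    refine (Finset.sum_le_sum hterm).trans ?_
    rw [← Finset.mul_sum]
    have hsf := p.sfk 3 Y hY2'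
    have hlog0 : 0 ≤ Real.log Y := Real.log_nonneg (by linarith)
    have hsf2 : (p.C * Real.log Y ^ p.n) ^ 3 ≤ (p.C * C0 ^ p.n) ^ 3 * L ^ (3 * p.n) := by
      have e1 : Real.log Y ^ p.n ≤ (C0 * L) ^ p.n := pow_le_pow_left₀ hlog0 hlogY _
      have e2 : p.C * Real.log Y ^ p.n ≤ p.C * (C0 * L) ^ p.n := mul_le_mul_of_nonneg_left e1 (by linarith)
      have e3 := pow_le_pow_left₀ (by positivity) e2 3
      refine e3.trans (le_of_eq ?_)
      rw [mul_pow C0 L, ← mul_assoc, mul_pow, ← pow_mul L, mul_comm p.n 3]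
    have hsf3 : ∑ s ∈ p.SF Y, (3 : ℝ) ^ s.card / p.nn s ≤ (p.C * C0 ^ p.n) ^ 3 * L ^ (3 * p.n) := by
      refine le_trans ?_ hsf2
      exact_mod_cast hsf
    have hpre : 0 ≤ 3 * Y / L ^ B₁ := by positivity
    refine (mul_le_mul_of_nonneg_left hsf3 hpre).trans (le_of_eq ?_)
    have e4 : L ^ B₁ = L ^ (B + 2) * L ^ (3 * p.n) := by
      rw [← pow_add]; congr 1; omega
    rw [e4, hK]
    field_simp
  rw [hsplit]
  refine (abs_add_le _ _).trans ((add_le_add hsmooth hns).trans ?_)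
  have hLb : 0 < L ^ B := by positivity
  have e5 : Y / L ^ (B + 1) + K * Y / L ^ (B + 2) = Y / L ^ B * (1 / L + K / L ^ 2) := by
    rw [pow_succ, pow_add]; field_simp
  rw [e5]
  have hKL : 2 * K ≤ L := by
    have : 2 * K ≤ M := by rw [hM]; nlinarith
    linarith
  have e6 : 1 / L + K / L ^ 2 ≤ 1 := by
    have g1 : 1 / L ≤ 1 / 2 := one_div_le_one_div_of_le (by norm_num) (by linarith)
    have g2 : K / L ^ 2 ≤ 1 / 2 := by
      rw [div_le_iff₀ (by positivity)]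
      nlinarith
    linarith
  have : 0 ≤ Y / L ^ B := by positivity
  nlinarith

end H57.LI
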