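import Pool.Agent.H57.LI.Net
import Pool.Agent.H57.LI.Sqp

/-!
# [H57 LI ABSFIN] The abstract form of (LI2)

`C0` with `C0 δ ≥ A + 1`: for `Y ≥ R^C0`: `R^A Y^(1-δ) ≤ Y / L^B`. For `Y ≤ R^C0`: `sqp` (contrapositive) gives `x` with
`x / L^(B + 3 n + 2) < |S1 x|`, then `net`.
-/

set_option autoImplicit false

noncomputable section

namespace H57.LI

variable {ι : Type} (p : Pr ι)

/-- powers of the logarithm are at most the argument -/
theorem log_pow_le (B : ℕ) : ∃ R₀ : ℝ, 3 ≤ R₀ ∧ ∀ R : ℝ, R₀ ≤ R → Real.log R ^ B ≤ R := by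
  have h := isLittleO_log_rpow_atTop (r := 1 / ((B : ℝ) + 1)) (by positivity)
  have h1 := h.bound (c := 1) one_pos
  rw [Filter.eventually_atTop] at h1
  obtain ⟨a, ha⟩ := h1
  refine ⟨max a 3, le_max_right _ _, fun R hR => ?_⟩
  have hR3 : 3 ≤ R := (le_max_right _ _).trans hR
  have h2 := ha R ((le_max_left _ _).trans hR)
  have hlog : 0 ≤ Real.log R := Real.log_nonneg (by linarith)
  have hR0 : 0 ≤ R := by linarith
  rw [one_mul, Real.norm_of_nonneg hlog, Real.norm_of_nonneg (Real.rpow_nonneg hR0 _)] at h2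
  calc Real.log R ^ B ≤ (R ^ (1 / ((B : ℝ) + 1))) ^ B := pow_le_pow_left₀ hlog h2 B
    _ = R ^ (1 / ((B : ℝ) + 1) * B) := by rw [← Real.rpow_natCast, ← Real.rpow_mul hR0]
    _ ≤ R ^ (1 : ℝ) := by
        refine Real.rpow_le_rpow_of_exponent_le (by linarith) ?_
        have hB : (0 : ℝ) < (B : ℝ) + 1 := by positivity
        rw [one_div, inv_mul_le_iff₀ hB]
        linarith
    _ = R := Real.rpow_one R

theorem absfin (A δ ε : ℝ) (hA : 0 ≤ A) (hδ : 0 < δ) (hδ1 : δ ≤ 1) (hε : 0 < ε) (B : ℕ) :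
    ∃ R₀ : ℝ, 3 ≤ R₀ ∧ ∀ R : ℝ, R₀ ≤ R →
      ∀ (J : Type) [Fintype J] (lam : J → ι → ℝ), (∀ j i, |lam j i| ≤ 3) → Crs p A δ R lam →
        (∀ j, ∀ Y : ℝ, 1 ≤ Y → |p.SS (lam j) Y| ≤ R ^ A * Y ^ (1 - δ)) →
        (∀ j, ∃ Y : ℝ, Real.exp (Real.log (Real.log R) ^ 3) ≤ Y ∧ Y / Real.log R ^ B < |p.SS (lam j) Y|) →
        (Fintype.card J : ℝ) ≤ R ^ ε := by
  set C0 : ℝ := max 1 ((A + 1) / δ) with hC0d
  have hC0 : 1 ≤ C0 := le_max_left _ _
  have hC0δ : A + 1 ≤ C0 * δ := by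
    have h1 : (A + 1) / δ ≤ C0 := le_max_right _ _
    rwa [div_le_iff₀ hδ] at h1
  obtain ⟨A₀, hA₀⟩ := net p A δ ε C0 hA hδ hδ1 hε hC0 (B + 3 * p.n + 2)
  obtain ⟨R₁, hR₁3, hR₁⟩ := hA₀ (max A₀ (B + 3 * p.n + 4)) (le_max_left _ _)
  obtain ⟨R₂, hR₂3, hR₂⟩ := sqp p B (max A₀ (B + 3 * p.n + 4)) (le_max_right _ _) C0 hC0
  obtain ⟨R₃, hR₃3, hR₃⟩ := log_pow_le B
  refine ⟨max R₁ (max R₂ R₃), le_trans hR₁3 (le_max_left _ _), ?_⟩
  intro R hR J _ lam h3 hc hli hex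
  have hRR1 : R₁ ≤ R := (le_max_left _ _).trans hR
  have hRR2 : R₂ ≤ R := ((le_max_left _ _).trans (le_max_right _ _)).trans hR
  have hRR3 : R₃ ≤ R := ((le_max_right _ _).trans (le_max_right _ _)).trans hR
  have hR3 : 3 ≤ R := hR₁3.trans hRR1
  have hR0 : 0 < R := by linarith
  have hL : 0 < Real.log R := Real.log_pos (by linarith)
  refine hR₁ R hRR1 J lam h3 hc fun j => ?_
  obtain ⟨Y, hY0, hY1⟩ := hex j
  have hY1' : 1 ≤ Y := by
    refine le_trans (Real.one_le_exp ?_) hY0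
    have h1 : 1 ≤ Real.log R := by
      rw [Real.le_log_iff_exp_le hR0]
      have := Real.exp_one_lt_d9
      linarith
    have h2 : 0 ≤ Real.log (Real.log R) := Real.log_nonneg h1
    positivity
  have hY0' : 0 < Y := by linarith
  have hYC : Y ≤ R ^ C0 := by
    by_contra hlt
    rw [not_le] at hlt
    have h1 := hli j Y hY1'
    have h2 : R ^ A * Y ^ (1 - δ) ≤ Y / Real.log R ^ B := by
      rw [le_div_iff₀ (pow_pos hL B)]
      have h4 : R ^ (A + 1) ≤ Y ^ δ := by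
        calc R ^ (A + 1) ≤ R ^ (C0 * δ) := Real.rpow_le_rpow_of_exponent_le (by linarith) hC0δ
          _ = (R ^ C0) ^ δ := Real.rpow_mul hR0.le _ _
          _ ≤ Y ^ δ := Real.rpow_le_rpow (Real.rpow_nonneg hR0.le _) hlt.le hδ.le
      have h5 : R ^ (A + 1) = R ^ A * R := by rw [Real.rpow_add hR0, Real.rpow_one]
      have h6 : Y ^ δ * Y ^ (1 - δ) = Y := by
        rw [← Real.rpow_add hY0']
        simp
      have h7 := hR₃ R hRR3
      calc R ^ A * Y ^ (1 - δ) * Real.log R ^ B ≤ R ^ A * Y ^ (1 - δ) * R :=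
            mul_le_mul_of_nonneg_left h7 (by positivity)
        _ = R ^ (A + 1) * Y ^ (1 - δ) := by rw [h5]; ring
        _ ≤ Y ^ δ * Y ^ (1 - δ) := mul_le_mul_of_nonneg_right h4 (by positivity)
        _ = Y := h6
    linarith
  by_contra hno
  push Not at hno
  have h8 := hR₂ R hRR2 (lam j) (h3 j) (fun x hx1 hx2 => (hno x hx1 hx2).le) Y hY0 hYC
  linarith

end H57.LI
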