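import Mathlib

/-!
# [H57 LI EK] Lower bound of an elementary symmetric function (80-130 lines, Mathlib only)

Let `P` be a finite set, `|x i| ≤ 3`, `p_j = ∑ x i ^ j`, `e_j = ∑_{|s| = j} ∏_{i ∈ s} x i`, `m = card P`, `a = p_1`. Newton's identities
(`MvPolynomial.mul_esymm_eq_sum` for the type `P`, evaluated at `x`; `MvPolynomial.aeval_esymm_eq_multiset_esymm`,
`Finset.sum_subtype`, or prove them directly): `j e_j = ∑_{i=1}^j (-1)^(i-1) e_{j-i} p_i`.
If `a = 0` then `m = 0` (because `k ≥ 1`) and the left side is `0`. If `a ≠ 0` then `m ≥ 1` and `|a| ≥ 16 k`. Put `E_j = j! e_j / a^j`,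
`E_0 = 1`. Then for `1 ≤ j ≤ k`: `E_j = E_{j-1} + ∑_{i=2}^j (-1)^(i-1) E_{j-i} ((j-1)!/(j-i)!) p_i / a^i`, `(j-1)!/(j-i)! ≤ k^(i-1)`,
`|p_i| ≤ 3^i m`. Claim `|E_j - 1| ≤ j / (2 k)` for `j ≤ k` (strong induction; so `|E_i| ≤ 2` for the earlier ones):
`|E_j - E_{j-1}| ≤ (2 m / k) ∑_{i ≥ 2} (3 k / |a|)^i ≤ (2 m / k) (9 k^2 / a^2) / (1 - 3/16) ≤ (2 m / k) (9 / (288 m)) (16/13) ≤ 1 / (2 k)`.
For `j = k`: `|E_k| ≥ 1/2`.
-/

set_option autoImplicit false

noncomputable section

namespace H57.LI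

theorem ek_eval {ι : Type} (P : Finset ι) (x : ι → ℝ) (j : ℕ) :
    MvPolynomial.eval (fun i : P => x i) (MvPolynomial.esymm P ℝ j) = ∑ s ∈ P.powersetCard j, ∏ i ∈ s, x i := by
  have h1 : P.powersetCard j = ((Finset.univ : Finset P).powersetCard j).map
      (Finset.mapEmbedding (Function.Embedding.subtype (fun i => i ∈ P))).toEmbedding := by
    rw [← Finset.powersetCard_map]
    congr 1
    exact (Finset.attach_map_val (s := P)).symm
  rw [h1, Finset.sum_map, MvPolynomial.esymm, map_sum]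
  apply Finset.sum_congr rfl
  intro t _
  rw [map_prod]
  simp

theorem ek_psum {ι : Type} (P : Finset ι) (x : ι → ℝ) (j : ℕ) :
    MvPolynomial.eval (fun i : P => x i) (MvPolynomial.psum P ℝ j) = ∑ i ∈ P, x i ^ j := by
  rw [MvPolynomial.psum, map_sum, ← Finset.sum_coe_sort P (fun i => x i ^ j)]
  simp

theorem ek_newton {ι : Type} (P : Finset ι) (x : ι → ℝ) (j : ℕ) :
    ((j : ℝ) + 1) * (∑ s ∈ P.powersetCard (j + 1), ∏ i ∈ s, x i) =
      ∑ i ∈ Finset.range (j + 1), (-1) ^ i * (∑ s ∈ P.powersetCard (j - i), ∏ l ∈ s, x l) * ∑ l ∈ P, x l ^ (i + 1) := by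
  have h := congrArg (MvPolynomial.eval (fun i : P => x i)) (MvPolynomial.mul_esymm_eq_sum P ℝ (j + 1))
  rw [map_mul, ek_eval, map_mul, map_sum, Finset.sum_filter, Finset.Nat.sum_antidiagonal_eq_sum_range_succ_mk,
    Finset.sum_range_succ] at h
  simp only [lt_irrefl, if_false, add_zero] at h
  have h2 : ∑ k ∈ Finset.range (j + 1), (if k < j + 1 then
      MvPolynomial.eval (fun i : P => x i) ((-1) ^ k * MvPolynomial.esymm P ℝ k * MvPolynomial.psum P ℝ (j + 1 - k)) else 0) =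
      ∑ k ∈ Finset.range (j + 1), (-1) ^ k * (∑ s ∈ P.powersetCard k, ∏ l ∈ s, x l) * ∑ l ∈ P, x l ^ (j + 1 - k) := by
    apply Finset.sum_congr rfl
    intro k hk
    rw [if_pos (Finset.mem_range.1 hk), map_mul, map_mul, ek_eval, ek_psum]
    simp
  rw [h2, ← Finset.sum_range_reflect] at h
  have h3 : MvPolynomial.eval (fun i : P => x i) (((j + 1 : ℕ) : MvPolynomial P ℝ)) = (j : ℝ) + 1 := by
    simp
  rw [h3] at h
  rw [h, Finset.mul_sum]
  apply Finset.sum_congr rfl
  intro i hi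
  have hi' : i ≤ j := by
    have := Finset.mem_range.1 hi
    omega
  have e1 : j + 1 - 1 - i = j - i := by omega
  have e2 : j + 1 - (j - i) = i + 1 := by omega
  rw [e1, e2]
  simp only [map_pow, map_neg, map_one]
  rw [← mul_assoc, ← mul_assoc, ← pow_add]
  congr 2
  have e3 : j + 1 + 1 + (j - i) = i + 2 * (j - i + 1) := by omega
  rw [e3, pow_add, pow_mul]
  simp

theorem ek_fact {j i k : ℕ} (hij : i ≤ j) (hjk : j ≤ k) : (j.factorial : ℝ) / ((j - i).factorial : ℝ) ≤ (k : ℝ) ^ i := by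
  rw [div_le_iff₀ (by positivity)]
  have h1 : j.factorial ≤ k ^ i * (j - i).factorial := by
    have h2 : (j - i).factorial * j.descFactorial i = j.factorial := Nat.factorial_mul_descFactorial hij
    rw [← h2, mul_comm]
    apply Nat.mul_le_mul_right
    exact (Nat.descFactorial_le_pow j i).trans (Nat.pow_le_pow_left hjk i)
  exact_mod_cast h1

theorem ek {ι : Type} (P : Finset ι) (x : ι → ℝ) (h3 : ∀ i, |x i| ≤ 3) (k : ℕ) (hk : 1 ≤ k)
    (h : 288 * (k : ℝ) ^ 2 * P.card ≤ (∑ i ∈ P, x i) ^ 2) :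
    |∑ i ∈ P, x i| ^ k / (2 * (k.factorial : ℝ)) ≤ |∑ s ∈ P.powersetCard k, ∏ i ∈ s, x i| := by
  set a : ℝ := ∑ i ∈ P, x i with ha
  by_cases ha0 : a = 0
  · rw [ha0, abs_zero, zero_pow (by omega), zero_div]
    exact abs_nonneg _
  set e : ℕ → ℝ := fun j => ∑ s ∈ P.powersetCard j, ∏ i ∈ s, x i with he
  set p : ℕ → ℝ := fun j => ∑ i ∈ P, x i ^ j with hp
  have hP : 1 ≤ P.card := by
    rw [Nat.one_le_iff_ne_zero]
    intro h0
    have : P = ∅ := Finset.card_eq_zero.1 h0
    apply ha0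
    rw [ha, this, Finset.sum_empty]
  have hm : (1 : ℝ) ≤ P.card := by exact_mod_cast hP
  set m : ℝ := (P.card : ℝ) with hmdef
  have hk1 : (1 : ℝ) ≤ k := by exact_mod_cast hk
  have hapos : 0 < |a| := abs_pos.2 ha0
  have ha2 : 288 * (k : ℝ) ^ 2 * m ≤ |a| ^ 2 := by rw [sq_abs]; exact h
  have ha16 : 16 * (k : ℝ) ≤ |a| := by
    by_contra hcon
    push Not at hcon
    nlinarith [mul_le_mul_of_nonneg_left hm (by positivity : (0 : ℝ) ≤ 288 * (k : ℝ) ^ 2)]
  have hpb : ∀ i, |p i| ≤ 3 ^ i * m := by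
    intro i
    calc |p i| ≤ ∑ l ∈ P, |x l ^ i| := Finset.abs_sum_le_sum_abs _ _
      _ ≤ ∑ l ∈ P, (3 : ℝ) ^ i := Finset.sum_le_sum fun l _ => by
          rw [abs_pow]
          exact pow_le_pow_left₀ (abs_nonneg _) (h3 l) i
      _ = 3 ^ i * m := by rw [Finset.sum_const, nsmul_eq_mul, mul_comm]
  have hp1 : p 1 = a := by simp [hp, ha]
  set E : ℕ → ℝ := fun j => (j.factorial : ℝ) * e j / a ^ j with hE
  have hE0 : E 0 = 1 := by simp [hE, he]
  have hrec : ∀ j, E (j + 1) = ∑ i ∈ Finset.range (j + 1),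
      (-1) ^ i * ((j.factorial : ℝ) / ((j - i).factorial : ℝ)) * E (j - i) * (p (i + 1) / a ^ (i + 1)) := by
    intro j
    have hn := ek_newton P x j
    have h1 : E (j + 1) = (j.factorial : ℝ) * (((j : ℝ) + 1) * e (j + 1)) / a ^ (j + 1) := by
      simp only [hE, Nat.factorial_succ]
      push_cast
      ring
    rw [h1]
    have h2 : ((j : ℝ) + 1) * e (j + 1) = ∑ i ∈ Finset.range (j + 1), (-1) ^ i * e (j - i) * p (i + 1) := hn
    rw [h2, Finset.mul_sum, Finset.sum_div]
    apply Finset.sum_congr rfl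
    intro i hi
    have hi' : i ≤ j := by
      have := Finset.mem_range.1 hi
      omega
    have h4 : a ^ (j + 1) = a ^ (j - i) * a ^ (i + 1) := by
      rw [← pow_add]
      congr 1
      omega
    rw [h4]
    simp only [hE]
    have h5 : ((j - i).factorial : ℝ) ≠ 0 := by positivity
    have h6 : a ^ (j - i) ≠ 0 := pow_ne_zero _ ha0
    have h7 : a ^ (i + 1) ≠ 0 := pow_ne_zero _ ha0
    field_simp
  have hstep : ∀ j, j + 1 ≤ k → (∀ i ≤ j, |E i| ≤ 2) → |E (j + 1) - E j| ≤ 1 / (2 * k) := by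
    intro j hj hle
    rw [hrec j, Finset.sum_range_succ']
    have h0 : (-1 : ℝ) ^ 0 * ((j.factorial : ℝ) / ((j - 0).factorial : ℝ)) * E (j - 0) * (p (0 + 1) / a ^ (0 + 1)) = E j := by
      rw [Nat.sub_zero, zero_add, hp1, pow_zero, pow_one, div_self ha0, div_self (by positivity)]
      ring
    rw [h0, add_sub_cancel_right]
    set q : ℝ := 3 * k / |a| with hq
    have hq0 : 0 ≤ q := by positivity
    have hq1 : q ≤ 3 / 16 := by
      rw [hq, div_le_div_iff₀ hapos (by norm_num)]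
      linarith
    have hterm : ∀ i ∈ Finset.range j, |(-1 : ℝ) ^ (i + 1) * ((j.factorial : ℝ) / ((j - (i + 1)).factorial : ℝ)) *
        E (j - (i + 1)) * (p (i + 1 + 1) / a ^ (i + 1 + 1))| ≤ (2 * m / k * q ^ 2) * q ^ i := by
      intro i hi
      have hi' : i + 1 ≤ j := by
        have := Finset.mem_range.1 hi
        omega
      rw [abs_mul, abs_mul, abs_mul, abs_pow, abs_neg, abs_one, one_pow, one_mul, abs_div (p _), abs_pow,
        abs_of_nonneg (by positivity : (0 : ℝ) ≤ (j.factorial : ℝ) / ((j - (i + 1)).factorial : ℝ))]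
      have b1 : (j.factorial : ℝ) / ((j - (i + 1)).factorial : ℝ) ≤ (k : ℝ) ^ (i + 1) := ek_fact hi' (by omega)
      have b2 : |E (j - (i + 1))| ≤ 2 := hle _ (by omega)
      have b3 : |p (i + 1 + 1)| / |a| ^ (i + 1 + 1) ≤ 3 ^ (i + 1 + 1) * m / |a| ^ (i + 1 + 1) := by
        have := hpb (i + 1 + 1)
        gcongr
      calc (j.factorial : ℝ) / ((j - (i + 1)).factorial : ℝ) * |E (j - (i + 1))| * (|p (i + 1 + 1)| / |a| ^ (i + 1 + 1))
          ≤ (k : ℝ) ^ (i + 1) * 2 * (3 ^ (i + 1 + 1) * m / |a| ^ (i + 1 + 1)) := by gcongr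
        _ = (2 * m / k * q ^ 2) * q ^ i := by
            have hk0 : (k : ℝ) ≠ 0 := by linarith
            have hab0 : |a| ≠ 0 := hapos.ne'
            have hqq : 2 * m / k * q ^ 2 * q ^ i = 2 * m / k * q ^ (i + 1 + 1) := by
              rw [mul_assoc, ← pow_add, add_comm 2 i]
            rw [hqq, hq, div_pow, mul_pow, pow_succ (k : ℝ) (i + 1)]
            field_simp
    have hgeom : ∑ i ∈ Finset.range j, q ^ i ≤ 16 / 13 := by
      have h1 : ∑ i ∈ Finset.range j, q ^ i ≤ (1 - q)⁻¹ := by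
        have hs := summable_geometric_of_lt_one hq0 (by linarith)
        have ht := tsum_geometric_of_lt_one hq0 (by linarith)
        rw [← ht]
        exact hs.sum_le_tsum _ (fun i _ => by positivity)
      refine h1.trans ?_
      rw [inv_le_comm₀ (by linarith) (by norm_num)]
      norm_num
      linarith
    have hq2 : 2 * m / k * q ^ 2 ≤ 1 / (16 * k) := by
      have e1 : q ^ 2 * |a| ^ 2 = 9 * (k : ℝ) ^ 2 := by
        rw [hq]
        field_simp
        ring
      have e2 : q ^ 2 * (288 * (k : ℝ) ^ 2 * m) ≤ 9 * (k : ℝ) ^ 2 := by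
        rw [← e1]
        exact mul_le_mul_of_nonneg_left ha2 (by positivity)
      have e3 : q ^ 2 * (32 * m) ≤ 1 := by
        have hkk : (0 : ℝ) < 9 * (k : ℝ) ^ 2 := by positivity
        have : (q ^ 2 * (32 * m)) * (9 * (k : ℝ) ^ 2) ≤ 1 * (9 * (k : ℝ) ^ 2) := by linarith
        exact le_of_mul_le_mul_right this hkk
      rw [div_mul_eq_mul_div, div_le_div_iff₀ (by positivity) (by positivity)]
      nlinarith
    calc |∑ i ∈ Finset.range j, (-1 : ℝ) ^ (i + 1) * ((j.factorial : ℝ) / ((j - (i + 1)).factorial : ℝ)) *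
        E (j - (i + 1)) * (p (i + 1 + 1) / a ^ (i + 1 + 1))| ≤ ∑ i ∈ Finset.range j, (2 * m / k * q ^ 2) * q ^ i :=
          (Finset.abs_sum_le_sum_abs _ _).trans (Finset.sum_le_sum hterm)
      _ = (2 * m / k * q ^ 2) * ∑ i ∈ Finset.range j, q ^ i := by rw [Finset.mul_sum]
      _ ≤ (1 / (16 * k)) * (16 / 13) := by gcongr
      _ ≤ 1 / (2 * k) := by
          rw [div_mul_div_comm, div_le_div_iff₀ (by positivity) (by positivity)]
          nlinarith
  have hmain : ∀ j ≤ k, |E j - 1| ≤ j / (2 * k) := by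
    intro j
    induction j using Nat.strong_induction_on with
    | _ j ih =>
      intro hj
      rcases Nat.eq_zero_or_pos j with h0 | h0
      · rw [h0, hE0]
        simp
      · obtain ⟨l, rfl⟩ : ∃ l, j = l + 1 := ⟨j - 1, by omega⟩
        have hb : ∀ i ≤ l, |E i| ≤ 2 := by
          intro i hi
          have h1 := ih i (by omega) (by omega)
          have h2 : (i : ℝ) / (2 * k) ≤ 1 := by
            rw [div_le_one (by positivity)]
            have : (i : ℝ) ≤ k := by exact_mod_cast (by omega : i ≤ k)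
            linarith
          have h3 : |E i| ≤ |E i - 1| + |(1 : ℝ)| := by
            have := abs_add_le (E i - 1) 1
            rwa [sub_add_cancel] at this
          rw [abs_one] at h3
          linarith
        have h1 := hstep l hj hb
        have h2 := ih l (by omega) (by omega)
        have h4 : |E (l + 1) - 1| ≤ |E (l + 1) - E l| + |E l - 1| := by
          have := abs_add_le (E (l + 1) - E l) (E l - 1)
          rwa [sub_add_sub_cancel] at this
        have h5 : ((l + 1 : ℕ) : ℝ) / (2 * k) = 1 / (2 * k) + l / (2 * k) := by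
          push_cast
          ring
        rw [h5]
        linarith
  have hfin := hmain k le_rfl
  have h1 : (k : ℝ) / (2 * k) = 1 / 2 := by
    field_simp
  rw [h1] at hfin
  have h2 : 1 / 2 ≤ |E k| := by
    have := abs_le.1 hfin
    have h3 : 1 / 2 ≤ E k := by linarith [this.1]
    exact h3.trans (le_abs_self _)
  have h3' : |E k| = (k.factorial : ℝ) * |e k| / |a| ^ k := by
    simp only [hE]
    rw [abs_div, abs_mul, abs_pow, abs_of_nonneg (by positivity : (0 : ℝ) ≤ (k.factorial : ℝ))]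
  rw [h3', le_div_iff₀ (by positivity)] at h2
  rw [div_le_iff₀ (by positivity)]
  linarith

end H57.LI
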