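import Pool.Agent.H57.LI.LS
import Pool.Agent.H57.LI.Ek

/-!
# [H57 LI EXC] The number of exceptional members at one point `x` (150-250 lines)

`Crs p A δ R lam`: the correlations of the family.

`exc1` (the inequality for one `x` and one `k`): let `M = x^k`, `c s = 1` if `s ⊆ p.P x` and `s.card = k`, else `0` (such an `s` is in
`p.SF M`). `ls` with `Q = R^A M^(1-δ)`, `∑ c^2 = choose(m, k) ≤ m^k / k!` (`Nat.choose_le_pow_div`), `m = card (p.P x) ≤ n x`
(`card_P` with `a = 0`, `m ≤ n (x + 1)`; to get `n x` use that no norm is `1`, or keep `2 n x`). By `ek` every member has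
`(∑ c s * pd (lam j) s)^2 ≥ (|S1|^k / (2 k!))^2 ≥ (x / L^B)^(2k) / (4 k!^2)`. So
`card J * (x^(2k) / (L^(2 B k) 4 k!^2)) ≤ (x^k (C log^n M)^9 + card J R^A x^(k(1-δ))) (2 n x)^k / k!`.

`exc` : let `L = log R`, `C1 = ⌈(4 (A + 1)) / (3 δ)⌉` (at least `1`), `k = ⌈C1 L / log x⌉₊`, so `C1 L ≤ k log x ≤ C1 L + log x`,
`1 ≤ k ≤ C1 L + 1 ≤ 2 C1 L`. `k! (2n)^k L^(2 B k) ≤ (4 C1 n L^(2B+1))^k ≤ L^((2B+2) k) ≤ x^(k (2B+2) / A')` (`x ≥ L^A'`). With
`(2B+2)/A' ≤ δ/4`: `4 k! (2n)^k L^(2Bk) R^A x^(-kδ) ≤ 4 R^A x^(-3kδ/4) ≤ 4 R^(A - 3 C1 δ/4) ≤ 4/R ≤ 1/2`. So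
`card J ≤ 8 k! (2n)^k L^(2Bk) (C log^n M)^9 ≤ 8 x^(k(2B+2)/A') (C ((C1 + C0) L)^n)^9`, and `x^k ≤ R^(C1 + C0)`: if
`A' ≥ 4 (C1 + C0) (2B+2) / ε` the first factor is `≤ R^(ε/4)`. Condition of `ek`: `288 k^2 m ≤ S1^2`: `S1^2 ≥ x^2 / L^(2B)`,
`x ≥ L^A'` with `A' ≥ 2 B + 4` and `R` large.
-/

set_option autoImplicit false

noncomputable section

namespace H57.LI

variable {ι : Type} (p : Pr ι)

/-- the correlations of a family -/
def Crs {J : Type} (A δ R : ℝ) (lam : J → ι → ℝ) : Prop :=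
  ∀ j j', j ≠ j' → ∀ Y : ℝ, 1 ≤ Y → |∑ s ∈ p.SF Y, pd (lam j) s * pd (lam j') s| ≤ R ^ A * Y ^ (1 - δ)

theorem exc_card (x : ℝ) (hx : 1 ≤ x) : ((p.P x).card : ℝ) ≤ 2 * p.n * x := by
  have h := p.card_P 0 x le_rfl (by linarith)
  have h1 : (p.P x).filter (fun i => (0 : ℝ) < (p.N i : ℝ)) = p.P x := by
    apply Finset.filter_true_of_mem
    intro i _
    have := p.one_le i
    linarith
  rw [h1] at h
  have h2 : (0 : ℝ) ≤ p.n := Nat.cast_nonneg _
  nlinarith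

theorem exc_sub {x : ℝ} (_hx : 0 ≤ x) {k : ℕ} {s : Finset ι} (hs : s ∈ (p.P x).powersetCard k) : s ∈ p.SF (x ^ k) := by
  rw [Finset.mem_powersetCard] at hs
  rw [p.mem_SF, Pr.nn]
  calc ∏ i ∈ s, (p.N i : ℝ) ≤ ∏ _i ∈ s, x :=
        Finset.prod_le_prod (fun i _ => by positivity) (fun i hi => p.mem_P.1 (hs.1 hi))
    _ = x ^ k := by rw [Finset.prod_const, hs.2]

theorem exc1 {J : Type} [Fintype J] (lam : J → ι → ℝ) (h3 : ∀ j i, |lam j i| ≤ 3) (A δ R : ℝ) (hR : 1 ≤ R)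
    (hc : Crs p A δ R lam) (x : ℝ) (hx : 2 ≤ x) (k : ℕ) (hk : 1 ≤ k) (t : ℝ) (ht : 0 ≤ t) (hj : ∀ j, t ≤ |p.S1 (lam j) x|)
    (h : 288 * (k : ℝ) ^ 2 * (2 * p.n * x) ≤ t ^ 2) :
    (Fintype.card J : ℝ) * (t ^ (2 * k) / (4 * (k.factorial : ℝ) ^ 2)) ≤
      (x ^ k * (p.C * Real.log (x ^ k) ^ p.n) ^ 9 + Fintype.card J * (R ^ A * (x ^ k) ^ (1 - δ))) *
        ((2 * p.n * x) ^ k / k.factorial) := by
  classical
  have hx1 : (1 : ℝ) ≤ x := by linarith
  have hM : 2 ≤ x ^ k := by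
    calc (2 : ℝ) ≤ x := hx
      _ = x ^ 1 := (pow_one x).symm
      _ ≤ x ^ k := pow_le_pow_right₀ hx1 hk
  have hM0 : 0 < x ^ k := by linarith
  set c : Finset ι → ℝ := fun s => if s ∈ (p.P x).powersetCard k then 1 else 0 with hcdef
  have hls := p.ls lam h3 (R ^ A * (x ^ k) ^ (1 - δ)) (x ^ k) hM (by positivity)
    (fun j j' hjj => hc j j' hjj (x ^ k) (by linarith)) c
  have hsub : (p.P x).powersetCard k ⊆ p.SF (x ^ k) := fun s hs => exc_sub p (by linarith) hs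
  have hsum : ∀ f : Finset ι → ℝ, ∑ s ∈ p.SF (x ^ k), c s * f s = ∑ s ∈ (p.P x).powersetCard k, f s := by
    intro f
    rw [← Finset.sum_subset hsub (f := fun s => c s * f s)]
    · apply Finset.sum_congr rfl
      intro s hs
      simp only [hcdef]
      rw [if_pos hs, one_mul]
    · intro s _ hs
      simp only [hcdef]
      rw [if_neg hs, zero_mul]
  have hc2 : ∑ s ∈ p.SF (x ^ k), c s ^ 2 ≤ (2 * p.n * x) ^ k / k.factorial := by
    have h1 : ∑ s ∈ p.SF (x ^ k), c s ^ 2 = ((p.P x).card.choose k : ℝ) := by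
      have := hsum c
      simp only [← pow_two] at this
      rw [this]
      have h2 : ∀ s ∈ (p.P x).powersetCard k, c s = 1 := by
        intro s hs
        simp only [hcdef]
        rw [if_pos hs]
      rw [Finset.sum_congr rfl h2, Finset.sum_const, Finset.card_powersetCard]
      simp
    rw [h1]
    refine (Nat.choose_le_pow_div (α := ℝ) k (p.P x).card).trans ?_
    have h2 := exc_card p x hx1
    gcongr
  have hlow : ∀ j, t ^ (2 * k) / (4 * (k.factorial : ℝ) ^ 2) ≤ (∑ s ∈ p.SF (x ^ k), c s * pd (lam j) s) ^ 2 := by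
    intro j
    rw [hsum]
    have h1 := exc_card p x hx1
    have h2 : t ^ 2 ≤ (∑ i ∈ p.P x, lam j i) ^ 2 := by
      have := hj j
      rw [Pr.S1] at this
      rw [← sq_abs (∑ i ∈ p.P x, lam j i)]
      exact pow_le_pow_left₀ ht this 2
    have h4 := ek (p.P x) (lam j) (h3 j) k hk (by
      refine le_trans ?_ (h.trans h2)
      gcongr)
    have h5 : t ^ k / (2 * (k.factorial : ℝ)) ≤ |∑ s ∈ (p.P x).powersetCard k, pd (lam j) s| := by
      refine le_trans ?_ h4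
      have := hj j
      rw [Pr.S1] at this
      gcongr
    have h6 : t ^ (2 * k) / (4 * (k.factorial : ℝ) ^ 2) = (t ^ k / (2 * (k.factorial : ℝ))) ^ 2 := by
      rw [div_pow, mul_pow, ← pow_mul, mul_comm k 2]
      norm_num
    rw [h6, ← sq_abs (∑ s ∈ (p.P x).powersetCard k, pd (lam j) s)]
    exact pow_le_pow_left₀ (by positivity) h5 2
  have hlog : 0 ≤ Real.log (x ^ k) := Real.log_nonneg (by linarith)
  have hC : 0 ≤ p.C := by linarith [p.C1]
  calc (Fintype.card J : ℝ) * (t ^ (2 * k) / (4 * (k.factorial : ℝ) ^ 2))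
      = ∑ _j : J, t ^ (2 * k) / (4 * (k.factorial : ℝ) ^ 2) := by
        rw [Finset.sum_const, nsmul_eq_mul, Finset.card_univ]
    _ ≤ ∑ j, (∑ s ∈ p.SF (x ^ k), c s * pd (lam j) s) ^ 2 := Finset.sum_le_sum fun j _ => hlow j
    _ ≤ _ := hls
    _ ≤ _ := by gcongr

theorem exc (A δ ε C0 : ℝ) (hA : 0 ≤ A) (hδ : 0 < δ) (hδ1 : δ ≤ 1) (hε : 0 < ε) (hC0 : 1 ≤ C0) (B : ℕ) :
    ∃ A₀ : ℕ, ∀ A' : ℕ, A₀ ≤ A' → ∃ R₀ : ℝ, 3 ≤ R₀ ∧ ∀ R : ℝ, R₀ ≤ R → ∀ x : ℝ, Real.log R ^ A' ≤ x → x ≤ R ^ C0 →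
      ∀ (J : Type) [Fintype J] (lam : J → ι → ℝ), (∀ j i, |lam j i| ≤ 3) → Crs p A δ R lam →
        (∀ j, x / Real.log R ^ B ≤ |p.S1 (lam j) x|) → (Fintype.card J : ℝ) ≤ R ^ ε := by
  set C1 : ℝ := max 1 (4 * (A + 1) / (3 * δ)) with hC1
  have hC11 : 1 ≤ C1 := le_max_left _ _
  have hC12 : 4 * (A + 1) / (3 * δ) ≤ C1 := le_max_right _ _
  set D : ℝ := C1 + C0 with hD
  have hD1 : 1 ≤ D := by linarith
  set η : ℝ := min (δ / 4) (ε / (4 * D)) with hη
  have hη0 : 0 < η := lt_min (by positivity) (by positivity)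
  have hη1 : η ≤ δ / 4 := min_le_left _ _
  have hη2 : η ≤ ε / (4 * D) := min_le_right _ _
  have hC : 1 ≤ p.C := p.C1
  have hn0 : (0 : ℝ) ≤ p.n := Nat.cast_nonneg _
  refine ⟨max (2 * B + 3) ⌈(2 * (B : ℝ) + 2) / η⌉₊, fun A' hA' => ?_⟩
  have hA1 : 2 * B + 3 ≤ A' := (le_max_left _ _).trans hA'
  have hA2 : 2 * (B : ℝ) + 2 ≤ η * A' := by
    have h1 : (2 * (B : ℝ) + 2) / η ≤ A' := (Nat.le_ceil _).trans (by exact_mod_cast (le_max_right _ _).trans hA')
    rw [div_le_iff₀ hη0] at h1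
    linarith
  have hev : ∀ᶠ R : ℝ in Filter.atTop, 8 * (p.C * (D * Real.log R) ^ p.n) ^ 9 ≤ R ^ (ε / 2) := by
    have h1 := (isLittleO_log_rpow_rpow_atTop (9 * p.n : ℕ) (by positivity : 0 < ε / 2))
    have hc0 : 0 < 1 / (8 * p.C ^ 9 * D ^ (9 * p.n)) := by positivity
    have h2 := h1.bound hc0
    filter_upwards [h2, Filter.eventually_ge_atTop 1] with R hR1 hR2
    have hlog : 0 ≤ Real.log R := Real.log_nonneg hR2
    rw [Real.rpow_natCast, Real.norm_of_nonneg (by positivity), Real.norm_of_nonneg (by positivity)] at hR1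
    have h3 : 8 * (p.C * (D * Real.log R) ^ p.n) ^ 9 = (8 * p.C ^ 9 * D ^ (9 * p.n)) * Real.log R ^ (9 * p.n) := by
      ring
    rw [h3]
    calc (8 * p.C ^ 9 * D ^ (9 * p.n)) * Real.log R ^ (9 * p.n)
        ≤ (8 * p.C ^ 9 * D ^ (9 * p.n)) * (1 / (8 * p.C ^ 9 * D ^ (9 * p.n)) * R ^ (ε / 2)) := by gcongr
      _ = R ^ (ε / 2) := by
          field_simp
  have hev2 : ∀ᶠ R : ℝ in Filter.atTop, Real.exp 1 ≤ Real.log R ∧ 4 * C1 * p.n ≤ Real.log R ∧
      2304 * C1 ^ 2 * p.n ≤ Real.log R := by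
    have h1 := Real.tendsto_log_atTop.eventually_ge_atTop (Real.exp 1)
    have h2 := Real.tendsto_log_atTop.eventually_ge_atTop (4 * C1 * p.n)
    have h3 := Real.tendsto_log_atTop.eventually_ge_atTop (2304 * C1 ^ 2 * p.n)
    filter_upwards [h1, h2, h3] with R a b c
    exact ⟨a, b, c⟩
  obtain ⟨R₁, hR₁⟩ := Filter.eventually_atTop.1 (hev.and hev2)
  refine ⟨max R₁ 8, le_trans (by norm_num) (le_max_right _ _), fun R hR x hx1 hx2 J _ lam h3 hc hj => ?_⟩
  obtain ⟨hb1, hb2, hb3, hb4⟩ := hR₁ R ((le_max_left _ _).trans hR)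
  have hR8 : 8 ≤ R := (le_max_right _ _).trans hR
  have hRpos : 0 < R := by linarith
  set L : ℝ := Real.log R with hL
  have he : 2 < Real.exp 1 := by
    have := Real.exp_one_gt_d9
    linarith
  have hL2 : 2 ≤ L := by linarith
  have hL1 : 1 ≤ L := by linarith
  have hLpos : 0 < L := by linarith
  have hlogL : 1 ≤ Real.log L := by
    rw [Real.le_log_iff_exp_le hLpos]
    exact hb2
  have hx2' : L ^ (2 * B + 3) ≤ x := (pow_le_pow_right₀ hL1 hA1).trans hx1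
  have hxL : L ≤ x := by
    calc L = L ^ 1 := (pow_one L).symm
      _ ≤ L ^ (2 * B + 3) := pow_le_pow_right₀ hL1 (by omega)
      _ ≤ x := hx2'
  have hxpos : 0 < x := by linarith
  have hlogx : 1 ≤ Real.log x := hlogL.trans (Real.log_le_log hLpos hxL)
  have hlogx0 : 0 < Real.log x := by linarith
  set k : ℕ := ⌈C1 * L / Real.log x⌉₊ with hkdef
  have hk1 : 1 ≤ k := Nat.one_le_iff_ne_zero.2 (Nat.pos_iff_ne_zero.1 (Nat.ceil_pos.2 (by positivity)))
  have hklow : C1 * L ≤ k * Real.log x := by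
    have := Nat.le_ceil (C1 * L / Real.log x)
    rwa [div_le_iff₀ hlogx0] at this
  have hkup : (k : ℝ) * Real.log x ≤ C1 * L + Real.log x := by
    have h1 := (Nat.ceil_lt_add_one (by positivity : 0 ≤ C1 * L / Real.log x)).le
    have h2 : (k : ℝ) * Real.log x ≤ (C1 * L / Real.log x + 1) * Real.log x := by gcongr
    refine h2.trans (le_of_eq ?_)
    field_simp
  have hk2 : (k : ℝ) ≤ 2 * C1 * L := by
    have h1 := (Nat.ceil_lt_add_one (by positivity : 0 ≤ C1 * L / Real.log x)).le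
    have h2 : C1 * L / Real.log x ≤ C1 * L := div_le_self (by positivity) hlogx
    have h4 : 1 ≤ C1 * L := by nlinarith
    linarith
  have hlogR : Real.log x ≤ C0 * L := by
    have := Real.log_le_log hxpos hx2
    rwa [Real.log_rpow hRpos] at this
  set X : ℝ := x ^ k with hX
  have hXpos : 0 < X := by positivity
  have hlogX : Real.log X = k * Real.log x := by rw [hX, Real.log_pow]
  have hX1 : R ^ C1 ≤ X := by
    rw [Real.rpow_def_of_pos hRpos, ← Real.exp_log hXpos, hlogX, Real.exp_le_exp]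
    linarith
  have hlogX2 : Real.log X ≤ D * L := by
    rw [hlogX, hD]
    linarith
  have hX2 : X ≤ R ^ D := by
    rw [Real.rpow_def_of_pos hRpos, ← Real.exp_log hXpos, Real.exp_le_exp]
    linarith
  have hXone : 1 ≤ X := (Real.one_le_rpow (by linarith) (by linarith)).trans hX1
  have hlogX0 : 0 ≤ Real.log X := Real.log_nonneg hXone
  set W : ℝ := (k.factorial : ℝ) * (2 * p.n) ^ k * (L ^ B) ^ (2 * k) with hW
  have hW0 : 0 ≤ W := by positivity
  have hLx : L ^ (2 * B + 2) ≤ x ^ η := by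
    calc L ^ (2 * B + 2) = L ^ ((2 * B + 2 : ℕ) : ℝ) := (Real.rpow_natCast _ _).symm
      _ ≤ L ^ (A' * η : ℝ) := by
          apply Real.rpow_le_rpow_of_exponent_le hL1
          push_cast
          linarith
      _ = (L ^ A') ^ η := by
          rw [Real.rpow_mul hLpos.le, Real.rpow_natCast]
      _ ≤ x ^ η := Real.rpow_le_rpow (by positivity) hx1 hη0.le
  have hWX : W ≤ X ^ η := by
    have h1 : (k.factorial : ℝ) ≤ (2 * C1 * L) ^ k := by
      have : (k.factorial : ℝ) ≤ (k : ℝ) ^ k := by exact_mod_cast Nat.factorial_le_pow k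
      refine this.trans ?_
      gcongr
    calc W ≤ (2 * C1 * L) ^ k * (2 * p.n) ^ k * (L ^ B) ^ (2 * k) := by
          rw [hW]
          gcongr
      _ = (4 * C1 * p.n * L ^ (2 * B + 1)) ^ k := by
          rw [pow_mul (L ^ B) 2 k, ← mul_pow, ← mul_pow]
          congr 1
          ring
      _ ≤ (L ^ (2 * B + 2)) ^ k := by
          gcongr
          calc 4 * C1 * p.n * L ^ (2 * B + 1) ≤ L * L ^ (2 * B + 1) := by gcongr
            _ = L ^ (2 * B + 2) := by ring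
      _ ≤ (x ^ η) ^ k := by gcongr
      _ = X ^ η := by
          rw [hX, ← Real.rpow_natCast (x ^ η) k, ← Real.rpow_mul hxpos.le, ← Real.rpow_natCast x k,
            ← Real.rpow_mul hxpos.le, mul_comm]
  have hmain := exc1 p lam h3 A δ R (by linarith) hc x (by linarith) k hk1 (x / L ^ B) (by positivity) hj (by
    rw [div_pow, le_div_iff₀ (by positivity)]
    calc 288 * (k : ℝ) ^ 2 * (2 * p.n * x) * (L ^ B) ^ 2 ≤ 288 * (2 * C1 * L) ^ 2 * (2 * p.n * x) * (L ^ B) ^ 2 := by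
          gcongr
      _ = (2304 * C1 ^ 2 * p.n) * L ^ (2 * B + 2) * x := by ring
      _ ≤ L * L ^ (2 * B + 2) * x := by gcongr
      _ = L ^ (2 * B + 3) * x := by ring
      _ ≤ x * x := by gcongr
      _ = x ^ 2 := by ring)
  set N : ℝ := (Fintype.card J : ℝ) with hN
  have hN0 : 0 ≤ N := Nat.cast_nonneg _
  set G : ℝ := (p.C * Real.log X ^ p.n) ^ 9 with hG
  have hG0 : 0 ≤ G := by positivity
  have hk0 : (0 : ℝ) < (k.factorial : ℝ) := by positivity
  have hLB : (0 : ℝ) < (L ^ B) ^ (2 * k) := by positivity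
  have hmain2 : N ≤ (G + N * (R ^ A * X ^ (-δ))) * (4 * W) := by
    have h1 : N * ((x / L ^ B) ^ (2 * k) / (4 * (k.factorial : ℝ) ^ 2)) =
        N * (X ^ 2 / ((L ^ B) ^ (2 * k) * (4 * (k.factorial : ℝ) ^ 2))) := by
      have hXk : X ^ 2 = x ^ (2 * k) := by rw [hX, ← pow_mul, mul_comm k 2]
      rw [hXk, div_pow, div_div]
    have h2 : (X * G + N * (R ^ A * X ^ (1 - δ))) * ((2 * p.n * x) ^ k / k.factorial) =
        (G + N * (R ^ A * X ^ (-δ))) * (4 * W) * (X ^ 2 / ((L ^ B) ^ (2 * k) * (4 * (k.factorial : ℝ) ^ 2))) := by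
      have h5 : X ^ (1 - δ) = X * X ^ (-δ) := by
        rw [sub_eq_add_neg, Real.rpow_add hXpos, Real.rpow_one]
      rw [h5, mul_pow (2 * (p.n : ℝ)) x k, ← hX, hW]
      field_simp
    rw [h1, h2] at hmain
    exact le_of_mul_le_mul_right hmain (by positivity)
  have hsmall : 4 * W * (R ^ A * X ^ (-δ)) ≤ 1 / 2 := by
    have h1 : W * X ^ (-δ) ≤ X ^ (-(3 * δ / 4)) := by
      calc W * X ^ (-δ) ≤ X ^ η * X ^ (-δ) := by gcongr
        _ = X ^ (η + -δ) := (Real.rpow_add hXpos _ _).symm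
        _ ≤ X ^ (-(3 * δ / 4)) := Real.rpow_le_rpow_of_exponent_le hXone (by linarith)
    have h2 : X ^ (-(3 * δ / 4)) ≤ (R ^ C1) ^ (-(3 * δ / 4)) := by
      apply Real.rpow_le_rpow_of_nonpos (by positivity) hX1
      linarith
    have h5 : (R ^ C1) ^ (-(3 * δ / 4)) = R ^ (-(3 * δ / 4 * C1)) := by
      rw [← Real.rpow_mul hRpos.le]
      congr 1
      ring
    have h6 : A + 1 ≤ 3 * δ / 4 * C1 := by
      rw [div_le_iff₀ (by positivity)] at hC12
      linarith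
    have h7 : R ^ A * R ^ (-(3 * δ / 4 * C1)) ≤ R ^ (-1 : ℝ) := by
      rw [← Real.rpow_add hRpos]
      exact Real.rpow_le_rpow_of_exponent_le (by linarith) (by linarith)
    have h8 : R ^ (-1 : ℝ) ≤ 1 / 8 := by
      rw [Real.rpow_neg_one, inv_eq_one_div]
      exact one_div_le_one_div_of_le (by norm_num) hR8
    calc 4 * W * (R ^ A * X ^ (-δ)) = 4 * (R ^ A * (W * X ^ (-δ))) := by ring
      _ ≤ 4 * (R ^ A * R ^ (-(3 * δ / 4 * C1))) := by
          rw [← h5]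
          gcongr
          exact h1.trans h2
      _ ≤ 4 * (1 / 8) := by linarith
      _ = 1 / 2 := by norm_num
  have hfin : N ≤ 8 * W * G := by
    have h1 : (G + N * (R ^ A * X ^ (-δ))) * (4 * W) = 4 * W * G + N * (4 * W * (R ^ A * X ^ (-δ))) := by ring
    rw [h1] at hmain2
    have h2 : N * (4 * W * (R ^ A * X ^ (-δ))) ≤ N * (1 / 2) := by gcongr
    linarith
  have hG2 : 8 * G ≤ R ^ (ε / 2) := by
    refine le_trans ?_ hb1
    rw [hG]
    gcongr
  have hW2 : W ≤ R ^ (ε / 4) := by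
    calc W ≤ X ^ η := hWX
      _ ≤ (R ^ D) ^ η := Real.rpow_le_rpow hXpos.le hX2 hη0.le
      _ = R ^ (D * η) := (Real.rpow_mul hRpos.le _ _).symm
      _ ≤ R ^ (ε / 4) := by
          apply Real.rpow_le_rpow_of_exponent_le (by linarith)
          calc D * η ≤ D * (ε / (4 * D)) := by gcongr
            _ = ε / 4 := by field_simp
  calc N ≤ 8 * W * G := hfin
    _ = W * (8 * G) := by ring
    _ ≤ R ^ (ε / 4) * R ^ (ε / 2) := by gcongr
    _ = R ^ (ε / 4 + ε / 2) := (Real.rpow_add hRpos _ _).symm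
    _ ≤ R ^ ε := Real.rpow_le_rpow_of_exponent_le (by linarith) (by linarith)

end H57.LI
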