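import Pool.Agent.H57.LI.Abs

/-!
# [H57 LI DUAL] Duality and the bound of a Gram matrix

`dual`: let `S j = ∑ n ∈ T, c n * a j n`. `∑ j, S j ^ 2 = ∑ n ∈ T, c n * ∑ j, S j * a j n`, by Cauchy-Schwarz
(`Finset.sum_mul_sq_le_sq_mul_sq`) `(∑ j, S j ^ 2) ^ 2 ≤ (∑ c n ^ 2) * (∑ n, (∑ j, S j * a j n) ^ 2) ≤ (∑ c n ^ 2) * Λ * ∑ j, S j ^ 2`.
`gram`: `∑ n, (∑ j, y j * a j n) ^ 2 = ∑ j, ∑ j', y j * y j' * G j j' ≤ G ∑ y j ^ 2 + ε (∑ |y j|) ^ 2` and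
`(∑ |y j|) ^ 2 ≤ card J * ∑ y j ^ 2`.
-/

set_option autoImplicit false

noncomputable section

namespace H57.LI

theorem dual {J N : Type} [Fintype J] (T : Finset N) (a : J → N → ℝ) (Λ : ℝ) (hΛ : 0 ≤ Λ)
    (h : ∀ y : J → ℝ, ∑ n ∈ T, (∑ j, y j * a j n) ^ 2 ≤ Λ * ∑ j, y j ^ 2) (c : N → ℝ) :
    ∑ j, (∑ n ∈ T, c n * a j n) ^ 2 ≤ Λ * ∑ n ∈ T, c n ^ 2 := by
  set S : J → ℝ := fun j => ∑ n ∈ T, c n * a j n with hS
  have h1 : ∑ j, S j ^ 2 = ∑ n ∈ T, c n * ∑ j, S j * a j n := by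
    simp only [Finset.mul_sum]
    rw [Finset.sum_comm]
    refine Finset.sum_congr rfl fun j _ => ?_
    rw [pow_two, hS]
    simp only
    rw [Finset.mul_sum]
    refine Finset.sum_congr rfl fun n _ => ?_
    ring
  have h2 : (∑ j, S j ^ 2) ^ 2 ≤ (∑ n ∈ T, c n ^ 2) * ∑ n ∈ T, (∑ j, S j * a j n) ^ 2 := by
    rw [h1]
    exact Finset.sum_mul_sq_le_sq_mul_sq T c _
  have h3 := h S
  have hc : 0 ≤ ∑ n ∈ T, c n ^ 2 := Finset.sum_nonneg fun _ _ => sq_nonneg _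
  have hs : 0 ≤ ∑ j, S j ^ 2 := Finset.sum_nonneg fun _ _ => sq_nonneg _
  have h4 : (∑ j, S j ^ 2) * (∑ j, S j ^ 2) ≤ (Λ * ∑ n ∈ T, c n ^ 2) * ∑ j, S j ^ 2 := by
    calc (∑ j, S j ^ 2) * (∑ j, S j ^ 2) = (∑ j, S j ^ 2) ^ 2 := by ring
      _ ≤ (∑ n ∈ T, c n ^ 2) * ∑ n ∈ T, (∑ j, S j * a j n) ^ 2 := h2
      _ ≤ (∑ n ∈ T, c n ^ 2) * (Λ * ∑ j, S j ^ 2) := mul_le_mul_of_nonneg_left h3 hc
      _ = _ := by ring
  by_contra hne
  rw [not_le] at hne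
  have hpos : 0 < ∑ j, S j ^ 2 := lt_of_le_of_lt (by positivity) hne
  exact absurd h4 (not_le.2 (mul_lt_mul_of_pos_right hne hpos))

theorem gram {J N : Type} [Fintype J] (T : Finset N) (a : J → N → ℝ) (G Q : ℝ) (hQ : 0 ≤ Q)
    (hd : ∀ j, ∑ n ∈ T, a j n ^ 2 ≤ G) (ho : ∀ j j', j ≠ j' → |∑ n ∈ T, a j n * a j' n| ≤ Q) (y : J → ℝ) :
    ∑ n ∈ T, (∑ j, y j * a j n) ^ 2 ≤ (G + Fintype.card J * Q) * ∑ j, y j ^ 2 := by
  classical
  have h1 : ∑ n ∈ T, (∑ j, y j * a j n) ^ 2 = ∑ j, ∑ j', y j * y j' * ∑ n ∈ T, a j n * a j' n := by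
    have h2 : ∀ n ∈ T, (∑ j, y j * a j n) ^ 2 = ∑ j, ∑ j', y j * y j' * (a j n * a j' n) := by
      intro n _
      rw [pow_two, Finset.sum_mul_sum]
      refine Finset.sum_congr rfl fun j _ => Finset.sum_congr rfl fun j' _ => ?_
      ring
    rw [Finset.sum_congr rfl h2, Finset.sum_comm]
    refine Finset.sum_congr rfl fun j _ => ?_
    rw [Finset.sum_comm]
    refine Finset.sum_congr rfl fun j' _ => ?_
    rw [Finset.mul_sum]
  have h3 : ∀ j j', y j * y j' * ∑ n ∈ T, a j n * a j' n ≤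
      (if j = j' then G * y j ^ 2 else 0) + |y j| * |y j'| * Q := by
    intro j j'
    by_cases h : j = j'
    · subst h
      rw [if_pos rfl]
      have h4 : ∑ n ∈ T, a j n * a j n ≤ G := by
        refine le_trans (le_of_eq ?_) (hd j)
        refine Finset.sum_congr rfl fun n _ => ?_
        ring
      have h5 : 0 ≤ |y j| * |y j| * Q := by positivity
      nlinarith [mul_le_mul_of_nonneg_left h4 (mul_self_nonneg (y j))]
    · rw [if_neg h, zero_add]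
      calc y j * y j' * ∑ n ∈ T, a j n * a j' n ≤ |y j * y j' * ∑ n ∈ T, a j n * a j' n| := le_abs_self _
        _ = |y j| * |y j'| * |∑ n ∈ T, a j n * a j' n| := by rw [abs_mul, abs_mul]
        _ ≤ _ := mul_le_mul_of_nonneg_left (ho j j' h) (by positivity)
  have h6 : ∑ j, ∑ j', ((if j = j' then G * y j ^ 2 else 0) + |y j| * |y j'| * Q) =
      G * ∑ j, y j ^ 2 + (∑ j, |y j|) ^ 2 * Q := by
    simp only [Finset.sum_add_distrib, Finset.sum_ite_eq, Finset.mem_univ, if_true]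
    rw [← Finset.mul_sum, pow_two, Finset.sum_mul_sum, Finset.sum_mul]
    congr 1
    refine Finset.sum_congr rfl fun j _ => ?_
    rw [Finset.sum_mul]
  have h7 : (∑ j, |y j|) ^ 2 ≤ Fintype.card J * ∑ j, y j ^ 2 := by
    have h8 := sq_sum_le_card_mul_sum_sq (s := (Finset.univ : Finset J)) (f := fun j => |y j|)
    rw [Finset.card_univ] at h8
    refine h8.trans (le_of_eq ?_)
    congr 1
    refine Finset.sum_congr rfl fun j _ => ?_
    exact sq_abs _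
  rw [h1]
  calc ∑ j, ∑ j', y j * y j' * ∑ n ∈ T, a j n * a j' n
      ≤ ∑ j, ∑ j', ((if j = j' then G * y j ^ 2 else 0) + |y j| * |y j'| * Q) :=
        Finset.sum_le_sum fun j _ => Finset.sum_le_sum fun j' _ => h3 j j'
    _ = G * ∑ j, y j ^ 2 + (∑ j, |y j|) ^ 2 * Q := h6
    _ ≤ G * ∑ j, y j ^ 2 + (Fintype.card J * ∑ j, y j ^ 2) * Q := by
        have := mul_le_mul_of_nonneg_right h7 hQ
        linarith
    _ = _ := by ring

end H57.LI
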