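import Pool.Agent.H57.LI.Dual
import Pool.Agent.H57.LI.Sfk

/-!
# [H57 LI LS] The large sieve

`gram` with `T = p.SF M`, `a j s = pd (lam j) s`, `G = M (C log^n M)^9` (`(pd (lam j) s)^2 ≤ 9^|s|`, `sfk_card` with `k = 9`), then
`dual`.
-/

set_option autoImplicit false

noncomputable section

namespace H57.LI

variable {ι : Type} (p : Pr ι)

theorem abs_pd {f : ι → ℝ} (h3 : ∀ i, |f i| ≤ 3) (s : Finset ι) : |pd f s| ≤ 3 ^ s.card := by
  unfold pd
  rw [Finset.abs_prod, ← Finset.prod_const]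
  exact Finset.prod_le_prod (fun _ _ => abs_nonneg _) fun i _ => h3 i

theorem Pr.ls {J : Type} [Fintype J] (lam : J → ι → ℝ) (h3 : ∀ j i, |lam j i| ≤ 3) (Q M : ℝ) (hM : 2 ≤ M) (hQ : 0 ≤ Q)
    (ho : ∀ j j', j ≠ j' → |∑ s ∈ p.SF M, pd (lam j) s * pd (lam j') s| ≤ Q) (c : Finset ι → ℝ) :
    ∑ j, (∑ s ∈ p.SF M, c s * pd (lam j) s) ^ 2 ≤
      (M * (p.C * Real.log M ^ p.n) ^ 9 + Fintype.card J * Q) * ∑ s ∈ p.SF M, c s ^ 2 := by
  have hlog : 0 ≤ Real.log M := Real.log_nonneg (by linarith)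
  have hC := p.C1
  have h0 : 0 ≤ p.C * Real.log M ^ p.n := by positivity
  have hd : ∀ j, ∑ s ∈ p.SF M, pd (lam j) s ^ 2 ≤ M * (p.C * Real.log M ^ p.n) ^ 9 := by
    intro j
    refine le_trans (Finset.sum_le_sum fun s _ => ?_) (p.sfk_card 9 M hM)
    have h1 := abs_pd (h3 j) s
    have h2 : pd (lam j) s ^ 2 = |pd (lam j) s| ^ 2 := (sq_abs _).symm
    rw [h2]
    calc |pd (lam j) s| ^ 2 ≤ (3 ^ s.card) ^ 2 := pow_le_pow_left₀ (abs_nonneg _) h1 2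
      _ = ((9 : ℕ) : ℝ) ^ s.card := by
        rw [← pow_mul, mul_comm, pow_mul]
        norm_num
  have hΛ : 0 ≤ M * (p.C * Real.log M ^ p.n) ^ 9 + Fintype.card J * Q := by
    have : 0 ≤ M := by linarith
    positivity
  exact dual (p.SF M) (fun j s => pd (lam j) s) _ hΛ
    (fun y => gram (p.SF M) (fun j s => pd (lam j) s) _ Q hQ hd ho y) c

end H57.LI
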