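import Pool.Agent.H57.LI.Exc

/-!
# [H57 LI NET] All points `x` (100-160 lines)

Let `L = log R`, `T = L^A'`, `η = L^(-(B+1))`, `x_i = T (1 + η)^i`. A member with `x / L^B ≤ |S1 x|`, `T ≤ x ≤ R^C0`: let `i` be the largest
with `x_i ≤ x`; `|S1 x - S1 x_i| ≤ 3 #{l : x_i < N l ≤ x} ≤ 3 n (x - x_i + 1) ≤ 3 n (η x_i + 1)` (`card_P`), so
`|S1 x_i| ≥ x_i (L^(-B) - 3 n η - 3 n / x_i) ≥ x_i L^(-(B+1))` if `A' ≥ B + 2` and `R` is large. `i ≤ log (R^C0) / log (1 + η) ≤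
2 C0 L^(B+2)`. Cover `J` by the subtypes `J_i` (those with this `i`), each has at most `R^(ε/2)` elements by `exc` (with `B + 1`, `ε/2`),
and `(2 C0 L^(B+2) + 1) R^(ε/2) ≤ R^ε` for large `R`.
-/

set_option autoImplicit false

noncomputable section

namespace H57.LI

variable {ι : Type} (p : Pr ι)

private theorem net_S1 (f : ι → ℝ) (h3 : ∀ i, |f i| ≤ 3) (a b : ℝ) (ha : 0 ≤ a) (hab : a ≤ b) :
    |p.S1 f b - p.S1 f a| ≤ 3 * (p.n * (b - a + 1)) := by
  have e1 : (p.P b).filter (fun i => ¬ a < (p.N i : ℝ)) = p.P a := by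
    ext i
    rw [Finset.mem_filter, p.mem_P, p.mem_P]
    exact ⟨fun h => not_lt.1 h.2, fun h => ⟨h.trans hab, not_lt.2 h⟩⟩
  have e2 := Finset.sum_filter_add_sum_filter_not (p.P b) (fun i => a < (p.N i : ℝ)) f
  rw [e1] at e2
  have e3 : p.S1 f b - p.S1 f a = ∑ i ∈ (p.P b).filter (fun i => a < (p.N i : ℝ)), f i := by
    unfold Pr.S1
    rw [← e2]
    ring
  rw [e3]
  calc |∑ i ∈ (p.P b).filter (fun i => a < (p.N i : ℝ)), f i|
      ≤ ∑ i ∈ (p.P b).filter (fun i => a < (p.N i : ℝ)), |f i| := Finset.abs_sum_le_sum_abs _ _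
    _ ≤ ∑ i ∈ (p.P b).filter (fun i => a < (p.N i : ℝ)), (3 : ℝ) :=
        Finset.sum_le_sum fun i _ => h3 i
    _ = 3 * (((p.P b).filter (fun i => a < (p.N i : ℝ))).card : ℝ) := by
        rw [Finset.sum_const, nsmul_eq_mul, mul_comm]
    _ ≤ 3 * (p.n * (b - a + 1)) := mul_le_mul_of_nonneg_left (p.card_P a b ha hab) (by norm_num)

/-- one point of the net -/
private theorem net_pt (f : ι → ℝ) (h3 : ∀ i, |f i| ≤ 3) (B A' : ℕ) (hA' : B + 2 ≤ A') (L : ℝ)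
    (hL : 6 * (p.n : ℝ) + 2 ≤ L) (C x : ℝ) (hx : L ^ A' ≤ x) (hxC : Real.log x ≤ C)
    (h : x / L ^ B ≤ |p.S1 f x|) :
    ∃ i : ℕ, (i : ℝ) ≤ 2 * C * L ^ (B + 1) ∧
      L ^ A' * (1 + 1 / L ^ (B + 1)) ^ i ≤ x ∧
      L ^ A' * (1 + 1 / L ^ (B + 1)) ^ i / L ^ (B + 1) ≤
        |p.S1 f (L ^ A' * (1 + 1 / L ^ (B + 1)) ^ i)| := by
  have hn : (0 : ℝ) ≤ p.n := Nat.cast_nonneg _
  have hL1 : 1 ≤ L := by linarith
  have hL0 : 0 < L := by linarith
  have hP1 : 1 ≤ L ^ (B + 1) := one_le_pow₀ hL1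
  have hP0 : 0 < L ^ (B + 1) := by linarith
  set η : ℝ := 1 / L ^ (B + 1) with hη
  have hη0 : 0 < η := by rw [hη]; positivity
  have hη1 : η ≤ 1 := by
    rw [hη, div_le_one hP0]
    exact hP1
  have hT1 : 1 ≤ L ^ A' := one_le_pow₀ hL1
  have hT0 : 0 < L ^ A' := by linarith
  have hx0 : 0 < x := by linarith
  obtain ⟨i, hi1, hi2⟩ := exists_nat_pow_near (x := x / L ^ A') (y := 1 + η)
    (by rw [one_le_div hT0]; exact hx) (by linarith)
  have hxi : L ^ A' * (1 + η) ^ i ≤ x := by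
    rw [le_div_iff₀ hT0] at hi1
    linarith
  have hxi2 : x < L ^ A' * (1 + η) ^ i * (1 + η) := by
    rw [div_lt_iff₀ hT0, pow_succ] at hi2
    linarith
  have h1η : 1 ≤ (1 + η) ^ i := one_le_pow₀ (by linarith)
  refine ⟨i, ?_, hxi, ?_⟩
  · have e1 : (1 + η) ^ i ≤ x := by
      have : (1 + η) ^ i ≤ L ^ A' * (1 + η) ^ i := by nlinarith
      linarith
    have e2 : (i : ℝ) * Real.log (1 + η) ≤ C := by
      have := Real.log_le_log (by positivity) e1
      rw [Real.log_pow] at this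
      linarith
    have e3 : η / 2 ≤ Real.log (1 + η) := by
      have h4 := Real.one_sub_inv_le_log_of_pos (x := 1 + η) (by linarith)
      have h5 : η / 2 ≤ 1 - (1 + η)⁻¹ := by
        have h6 : (1 + η)⁻¹ * (1 + η) = 1 := inv_mul_cancel₀ (by linarith)
        have h7 : 0 < (1 + η)⁻¹ := by positivity
        nlinarith
      linarith
    have e4 : (i : ℝ) * (η / 2) ≤ C :=
      (mul_le_mul_of_nonneg_left e3 (Nat.cast_nonneg i)).trans e2
    have e5 : η * L ^ (B + 1) = 1 := by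
      rw [hη]
      field_simp
    calc (i : ℝ) = (i : ℝ) * (η / 2) * (2 * L ^ (B + 1)) := by
          rw [show (i : ℝ) * (η / 2) * (2 * L ^ (B + 1)) = i * (η * L ^ (B + 1)) by ring, e5,
            mul_one]
      _ ≤ C * (2 * L ^ (B + 1)) := mul_le_mul_of_nonneg_right e4 (by positivity)
      _ = 2 * C * L ^ (B + 1) := by ring
  · set y : ℝ := L ^ A' * (1 + η) ^ i with hy
    have hy0 : 0 ≤ y := by positivity
    have hyT : L ^ A' ≤ y := by
      rw [hy]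
      nlinarith
    have d1 := net_S1 p f h3 y x hy0 hxi
    have d2 : |p.S1 f x| ≤ |p.S1 f y| + |p.S1 f x - p.S1 f y| := by
      have := abs_add_le (p.S1 f y) (p.S1 f x - p.S1 f y)
      rwa [add_sub_cancel] at this
    have d3 : x - y ≤ y * η := by linarith
    have d4 : 3 * (p.n * (x - y + 1)) ≤ 3 * p.n * (y * η) + 3 * p.n := by
      have : (p.n : ℝ) * (x - y + 1) ≤ p.n * (y * η + 1) :=
        mul_le_mul_of_nonneg_left (by linarith) hn
      linarith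
    have d5 : y / L ^ B ≤ x / L ^ B := by
      apply div_le_div_of_nonneg_right hxi
      positivity
    have d6 : y / L ^ B = y / L ^ (B + 1) * L := by
      rw [pow_succ]
      field_simp
    have d7 : y * η = y / L ^ (B + 1) := by
      rw [hη]
      ring
    have d8 : L ≤ y / L ^ (B + 1) := by
      rw [le_div_iff₀ hP0]
      calc L * L ^ (B + 1) = L ^ (B + 2) := by ring
        _ ≤ L ^ A' := pow_le_pow_right₀ hL1 hA'
        _ ≤ y := hyT
    rw [d7] at d4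
    rw [d6] at d5
    set w : ℝ := y / L ^ (B + 1) with hw
    have d9 : w * (6 * p.n + 2) ≤ w * L := mul_le_mul_of_nonneg_left hL (by linarith)
    have d10 : (p.n : ℝ) * 1 ≤ p.n * w := mul_le_mul_of_nonneg_left (by linarith) hn
    nlinarith

private theorem net_large (n : ℕ) (C0 ε : ℝ) (hε : 0 < ε) (k : ℕ) : ∃ R₀ : ℝ, ∀ R : ℝ, R₀ ≤ R →
    6 * (n : ℝ) + 2 ≤ Real.log R ∧ 3 * C0 * Real.log R ^ k ≤ R ^ ε := by
  have h1 : ∀ᶠ R : ℝ in Filter.atTop, 6 * (n : ℝ) + 2 ≤ Real.log R :=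
    Real.tendsto_log_atTop.eventually_ge_atTop _
  have h2 : ∀ᶠ R : ℝ in Filter.atTop, 3 * C0 * Real.log R ^ k ≤ R ^ ε := by
    have h3 := (isLittleO_log_rpow_rpow_atTop (k : ℝ) hε).const_mul_left (3 * C0)
    filter_upwards [h3.bound (by norm_num : (0 : ℝ) < 1), Filter.eventually_ge_atTop (0 : ℝ)]
      with R hR hR0
    rw [one_mul, Real.rpow_natCast] at hR
    have h4 := (le_abs_self _).trans hR
    rwa [Real.norm_of_nonneg (Real.rpow_nonneg hR0 _)] at h4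
  obtain ⟨R₀, h⟩ := Filter.eventually_atTop.1 (h1.and h2)
  exact ⟨R₀, h⟩

theorem net (A δ ε C0 : ℝ) (hA : 0 ≤ A) (hδ : 0 < δ) (hδ1 : δ ≤ 1) (hε : 0 < ε) (hC0 : 1 ≤ C0) (B : ℕ) :
    ∃ A₀ : ℕ, ∀ A' : ℕ, A₀ ≤ A' → ∃ R₀ : ℝ, 3 ≤ R₀ ∧ ∀ R : ℝ, R₀ ≤ R →
      ∀ (J : Type) [Fintype J] (lam : J → ι → ℝ), (∀ j i, |lam j i| ≤ 3) → Crs p A δ R lam →
        (∀ j, ∃ x : ℝ, Real.log R ^ A' ≤ x ∧ x ≤ R ^ C0 ∧ x / Real.log R ^ B ≤ |p.S1 (lam j) x|) →
        (Fintype.card J : ℝ) ≤ R ^ ε := by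
  classical
  obtain ⟨A1, hA1⟩ := exc p A δ (ε / 2) C0 hA hδ hδ1 (by linarith) hC0 (B + 1)
  refine ⟨max A1 (B + 2), fun A' hA' => ?_⟩
  obtain ⟨R1, hR1, h1⟩ := hA1 A' ((le_max_left _ _).trans hA')
  have hAB : B + 2 ≤ A' := (le_max_right _ _).trans hA'
  obtain ⟨R2, h2⟩ := net_large p.n C0 (ε / 2) (by linarith) (B + 2)
  refine ⟨max R1 R2, hR1.trans (le_max_left _ _), fun R hR J _ lam h3 hc hx => ?_⟩
  have hRR1 : R1 ≤ R := (le_max_left _ _).trans hR
  obtain ⟨hL, hbig⟩ := h2 R ((le_max_right _ _).trans hR)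
  have hR3 : 3 ≤ R := hR1.trans hRR1
  have hR0 : 0 < R := by linarith
  have hn : (0 : ℝ) ≤ p.n := Nat.cast_nonneg _
  set L : ℝ := Real.log R with hLdef
  have hL1 : 1 ≤ L := by linarith
  have hL0 : 0 < L := by linarith
  have key : ∀ j, ∃ i : ℕ, (i : ℝ) ≤ 2 * (C0 * L) * L ^ (B + 1) ∧
      L ^ A' * (1 + 1 / L ^ (B + 1)) ^ i ≤ R ^ C0 ∧
      L ^ A' * (1 + 1 / L ^ (B + 1)) ^ i / L ^ (B + 1) ≤
        |p.S1 (lam j) (L ^ A' * (1 + 1 / L ^ (B + 1)) ^ i)| := by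
    intro j
    obtain ⟨x, hx1, hx2, hx3⟩ := hx j
    have hx0 : 0 < x := lt_of_lt_of_le (by positivity) hx1
    have hlog : Real.log x ≤ C0 * L := by
      have := Real.log_le_log hx0 hx2
      rwa [Real.log_rpow hR0] at this
    obtain ⟨i, hi1, hi2, hi3⟩ := net_pt p (lam j) (h3 j) B A' hAB L hL (C0 * L) x hx1 hlog hx3
    exact ⟨i, hi1, hi2.trans hx2, hi3⟩
  choose idx k1 k2 k3 using key
  set M : ℕ := ⌊2 * (C0 * L) * L ^ (B + 1)⌋₊ with hM
  have hmaps : ∀ j ∈ (Finset.univ : Finset J), idx j ∈ Finset.range (M + 1) := by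
    intro j _
    rw [Finset.mem_range, Nat.lt_succ_iff]
    exact Nat.le_floor (k1 j)
  have hcard := Finset.card_eq_sum_card_fiberwise hmaps
  have hfib : ∀ i ∈ Finset.range (M + 1),
      (((Finset.univ : Finset J).filter (fun j => idx j = i)).card : ℝ) ≤ R ^ (ε / 2) := by
    intro i _
    rcases Finset.eq_empty_or_nonempty ((Finset.univ : Finset J).filter (fun j => idx j = i)) with
      he | ⟨j0, hj0⟩
    · rw [he, Finset.card_empty, Nat.cast_zero]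
      positivity
    · have hj0' : idx j0 = i := (Finset.mem_filter.1 hj0).2
      have hb := h1 R hRR1 (L ^ A' * (1 + 1 / L ^ (B + 1)) ^ i)
        (by
          have : 1 ≤ (1 + 1 / L ^ (B + 1)) ^ i := one_le_pow₀ (by
            have : 0 ≤ 1 / L ^ (B + 1) := by positivity
            linarith)
          have hT0 : 0 < L ^ A' := by positivity
          nlinarith)
        (by rw [← hj0']; exact k2 j0)
        {j : J // idx j = i} (fun j => lam j.1) (fun j => h3 j.1)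
        (fun j j' hjj Y hY => hc j.1 j'.1 (fun e => hjj (Subtype.ext e)) Y hY)
        (fun j => by
          have := k3 j.1
          rwa [j.2] at this)
      rwa [Fintype.card_subtype] at hb
  have hsum : (Fintype.card J : ℝ) ≤ (M + 1 : ℝ) * R ^ (ε / 2) := by
    rw [← Finset.card_univ, hcard, Nat.cast_sum]
    refine (Finset.sum_le_sum hfib).trans ?_
    rw [Finset.sum_const, Finset.card_range, nsmul_eq_mul]
    push_cast
    exact le_rfl
  have hMle : (M : ℝ) ≤ 2 * (C0 * L) * L ^ (B + 1) := Nat.floor_le (by positivity)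
  have hC1 : 1 ≤ C0 * L ^ (B + 2) := by
    have : 1 ≤ L ^ (B + 2) := one_le_pow₀ hL1
    nlinarith
  have hM1 : (M + 1 : ℝ) ≤ R ^ (ε / 2) := by
    have e : 2 * (C0 * L) * L ^ (B + 1) = 2 * C0 * L ^ (B + 2) := by ring
    rw [e] at hMle
    linarith
  calc (Fintype.card J : ℝ) ≤ (M + 1 : ℝ) * R ^ (ε / 2) := hsum
    _ ≤ R ^ (ε / 2) * R ^ (ε / 2) := mul_le_mul_of_nonneg_right hM1 (by positivity)
    _ = R ^ ε := by
        rw [← Real.rpow_add hR0]
        congr 1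
        ring

end H57.LI
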