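import Pool.Agent.H57.LI.Sfk

/-!
# [H57 LI RSM] Smooth squarefree products: Rankin's trick (70-120 lines)

Let `L = log R`, `ℓ = log L`, `T = L^A'`, `σ = 1 / log T`. For the `s` in the sum: `1 ≤ (Y / nn s)^(1-σ)` and `s ⊆ p.P T`, so the sum is at
most `Y^(1-σ) ∑_{s ⊆ P T} 3^|s| (nn s)^(σ-1) = Y^(1-σ) ∏_{l ∈ P T} (1 + 3 (N l)^(σ-1))` (`Finset.prod_one_add` or
`Finset.prod_add_one`...), `(N l)^σ ≤ T^σ = e ≤ 3`, so the product is at most `exp (9 ∑_{l ∈ P T} 1 / N l) ≤ exp (9 n (1 + log T))`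
(`sum_inv`). So the sum is at most `Y exp (- log Y / log T + 9 n (1 + log T))`, `log T = A' ℓ`, `log Y ≥ ℓ^3`: exponent
`≤ -ℓ^2 / A' + 9 n (1 + A' ℓ) ≤ -B ℓ` for `ℓ` large.
-/

set_option autoImplicit false

noncomputable section

namespace H57.LI

variable {ι : Type} (p : Pr ι)

private lemma rsm_term {N T lt : ℝ} (hN : 1 ≤ N) (hNT : N ≤ T) (hlt : 1 ≤ lt) (hT : Real.log T = lt) :
    3 * N ^ (1 / lt - 1) ≤ 9 * (1 / N) := by
  have hN0 : 0 < N := lt_of_lt_of_le one_pos hN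
  have hT0 : 0 < T := lt_of_lt_of_le hN0 hNT
  have hlt0 : 0 < lt := lt_of_lt_of_le one_pos hlt
  have h1 : N ^ (1 / lt - 1) = N ^ (1 / lt) * (1 / N) := by
    rw [Real.rpow_sub hN0, Real.rpow_one]
    ring
  have h2 : N ^ (1 / lt) ≤ 3 := by
    calc N ^ (1 / lt) ≤ T ^ (1 / lt) := Real.rpow_le_rpow hN0.le hNT (by positivity)
      _ = Real.exp 1 := by
          rw [Real.rpow_def_of_pos hT0, hT]
          congr 1
          field_simp
      _ ≤ 3 := by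
          have := Real.exp_one_lt_d9
          linarith
  rw [h1]
  have h3 : 0 ≤ 1 / N := by positivity
  nlinarith

private lemma rsm_exp {A' B n : ℕ} (hA : 1 ≤ A') {l : ℝ}
    (hl : (A' : ℝ) * (9 * n + 9 * n * A' + B) + 1 ≤ l) :
    9 * (n * (1 + A' * l)) - l ^ 3 / (A' * l) ≤ -(B * l) := by
  have hA0 : (1 : ℝ) ≤ A' := by exact_mod_cast hA
  have hn0 : (0 : ℝ) ≤ n := Nat.cast_nonneg n
  have hB0 : (0 : ℝ) ≤ B := Nat.cast_nonneg B
  have hX : (0 : ℝ) ≤ 9 * n + 9 * n * A' + B := by positivity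
  have hl1 : 1 ≤ l := by
    have : 0 ≤ (A' : ℝ) * (9 * n + 9 * n * A' + B) := by positivity
    linarith
  have hl0 : 0 < l := by linarith
  have h1 : l ^ 3 / (A' * l) = l ^ 2 / A' := by
    field_simp
  rw [h1]
  have h2 : l * (9 * n + 9 * n * A' + B) ≤ l ^ 2 / A' := by
    rw [le_div_iff₀ (by linarith)]
    nlinarith
  nlinarith [mul_nonneg hn0 (by linarith : (0 : ℝ) ≤ l - 1)]

open Classical in
theorem rsm (A' B : ℕ) (hA : 1 ≤ A') : ∃ R₀ : ℝ, 3 ≤ R₀ ∧ ∀ R : ℝ, R₀ ≤ R → ∀ Y : ℝ,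
    Real.exp (Real.log (Real.log R) ^ 3) ≤ Y →
      ∑ s ∈ (p.SF Y).filter (fun s => ∀ i ∈ s, (p.N i : ℝ) ≤ Real.log R ^ A'), (3 : ℝ) ^ s.card ≤ Y / Real.log R ^ B := by
  obtain ⟨l₀, hl₀⟩ : ∃ l₀ : ℝ, l₀ = (A' : ℝ) * (9 * p.n + 9 * p.n * A' + B) + 1 := ⟨_, rfl⟩
  refine ⟨max 3 (Real.exp (Real.exp l₀)), le_max_left _ _, fun R hR Y hY => ?_⟩
  have hA0 : (1 : ℝ) ≤ A' := by exact_mod_cast hA
  have hl₀1 : 1 ≤ l₀ := by
    have : 0 ≤ (A' : ℝ) * (9 * p.n + 9 * p.n * A' + B) := by positivity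
    rw [hl₀]; linarith
  have hR3 : (3 : ℝ) ≤ R := le_trans (le_max_left _ _) hR
  have hR0 : 0 < R := by linarith
  have hRe : Real.exp (Real.exp l₀) ≤ R := le_trans (le_max_right _ _) hR
  have hL1 : Real.exp l₀ ≤ Real.log R := (Real.le_log_iff_exp_le hR0).2 hRe
  have hL0 : 0 < Real.log R := lt_of_lt_of_le (Real.exp_pos _) hL1
  have hLge1 : 1 ≤ Real.log R := le_trans (by
    have := Real.add_one_le_exp l₀
    linarith) hL1
  have hl1 : l₀ ≤ Real.log (Real.log R) := (Real.le_log_iff_exp_le hL0).2 hL1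
  generalize hL : Real.log R = L at *
  generalize hl : Real.log L = l at *
  have hl1' : 1 ≤ l := hl₀1.trans hl1
  have hl0 : 0 < l := by linarith
  have hT1 : 1 ≤ L ^ A' := one_le_pow₀ hLge1
  have hlogT : Real.log (L ^ A') = A' * l := by rw [Real.log_pow, hl]
  have hlt : 1 ≤ (A' : ℝ) * l := by nlinarith
  have hlt0 : 0 < (A' : ℝ) * l := by linarith
  have hY0 : 0 < Y := lt_of_lt_of_le (Real.exp_pos _) hY
  have hlogY : l ^ 3 ≤ Real.log Y := (Real.le_log_iff_exp_le hY0).2 hY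
  have hσ1 : 1 / ((A' : ℝ) * l) ≤ 1 := by
    rw [div_le_one hlt0]; exact hlt
  obtain ⟨σ, hσ⟩ : ∃ σ : ℝ, σ = 1 / ((A' : ℝ) * l) := ⟨_, rfl⟩
  have hσ0 : 0 < σ := by rw [hσ]; positivity
  rw [← hσ] at hσ1
  have hg0 : ∀ i, 0 ≤ 3 * (p.N i : ℝ) ^ (σ - 1) := fun i =>
    mul_nonneg (by norm_num) (Real.rpow_nonneg (Nat.cast_nonneg _) _)
  -- every term
  have hterm : ∀ s ∈ (p.SF Y).filter (fun s => ∀ i ∈ s, (p.N i : ℝ) ≤ L ^ A'),
      (3 : ℝ) ^ s.card ≤ Y ^ (1 - σ) * ∏ i ∈ s, (3 * (p.N i : ℝ) ^ (σ - 1)) := by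
    intro s hs
    have hnn : p.nn s ≤ Y := p.mem_SF.1 (Finset.mem_filter.1 hs).1
    have hpos := p.nn_pos s
    have e1 : ∏ i ∈ s, (3 * (p.N i : ℝ) ^ (σ - 1)) = 3 ^ s.card * (p.nn s) ^ (σ - 1) := by
      rw [Finset.prod_mul_distrib, Finset.prod_const,
        Real.finsetProd_rpow s (fun i => (p.N i : ℝ)) (fun i _ => Nat.cast_nonneg _)]
      rfl
    have e2 : 1 ≤ Y ^ (1 - σ) * (p.nn s) ^ (σ - 1) := by
      have h3 : (p.nn s) ^ (σ - 1) = ((p.nn s) ^ (1 - σ))⁻¹ := by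
        rw [← Real.rpow_neg hpos.le]
        congr 1
        ring
      have h4 : 0 < (p.nn s) ^ (1 - σ) := Real.rpow_pos_of_pos hpos _
      rw [h3, ← div_eq_mul_inv, le_div_iff₀ h4, one_mul]
      exact Real.rpow_le_rpow hpos.le hnn (by linarith)
    rw [e1]
    calc (3 : ℝ) ^ s.card = 3 ^ s.card * 1 := (mul_one _).symm
      _ ≤ 3 ^ s.card * (Y ^ (1 - σ) * (p.nn s) ^ (σ - 1)) :=
          mul_le_mul_of_nonneg_left e2 (by positivity)
      _ = Y ^ (1 - σ) * (3 ^ s.card * (p.nn s) ^ (σ - 1)) := by ring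
  have hsub : (p.SF Y).filter (fun s => ∀ i ∈ s, (p.N i : ℝ) ≤ L ^ A')
      ⊆ (p.P (L ^ A')).powerset := by
    intro s hs
    rw [Finset.mem_powerset]
    intro i hi
    exact p.mem_P.2 ((Finset.mem_filter.1 hs).2 i hi)
  have hYσ : 0 ≤ Y ^ (1 - σ) := Real.rpow_nonneg hY0.le _
  have h1 : ∑ s ∈ (p.SF Y).filter (fun s => ∀ i ∈ s, (p.N i : ℝ) ≤ L ^ A'), (3 : ℝ) ^ s.card
      ≤ Y ^ (1 - σ) * ∏ i ∈ p.P (L ^ A'), (1 + 3 * (p.N i : ℝ) ^ (σ - 1)) := by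
    refine (Finset.sum_le_sum hterm).trans ?_
    rw [← Finset.mul_sum, Finset.prod_one_add]
    refine mul_le_mul_of_nonneg_left ?_ hYσ
    exact Finset.sum_le_sum_of_subset_of_nonneg hsub
      (fun s _ _ => Finset.prod_nonneg (fun i _ => hg0 i))
  have h2 : ∏ i ∈ p.P (L ^ A'), (1 + 3 * (p.N i : ℝ) ^ (σ - 1))
      ≤ Real.exp (9 * (p.n * (1 + A' * l))) := by
    calc ∏ i ∈ p.P (L ^ A'), (1 + 3 * (p.N i : ℝ) ^ (σ - 1))
        ≤ ∏ i ∈ p.P (L ^ A'), Real.exp (3 * (p.N i : ℝ) ^ (σ - 1)) :=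
          Finset.prod_le_prod (fun i _ => by have := hg0 i; linarith)
            (fun i _ => by have := Real.add_one_le_exp (3 * (p.N i : ℝ) ^ (σ - 1)); linarith)
      _ = Real.exp (∑ i ∈ p.P (L ^ A'), 3 * (p.N i : ℝ) ^ (σ - 1)) := (Real.exp_sum _ _).symm
      _ ≤ Real.exp (9 * (p.n * (1 + A' * l))) := by
          refine Real.exp_le_exp.2 ?_
          calc ∑ i ∈ p.P (L ^ A'), 3 * (p.N i : ℝ) ^ (σ - 1)
              ≤ ∑ i ∈ p.P (L ^ A'), 9 * (1 / (p.N i : ℝ)) :=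
                Finset.sum_le_sum (fun i hi => by
                  have := rsm_term (p.one_le i) (p.mem_P.1 hi) hlt hlogT
                  rw [hσ]; exact this)
            _ = 9 * ∑ i ∈ p.P (L ^ A'), 1 / (p.N i : ℝ) := by rw [Finset.mul_sum]
            _ ≤ 9 * (p.n * (1 + A' * l)) := by
                have := p.sum_inv (L ^ A') hT1
                rw [hlogT] at this
                linarith
  refine h1.trans ((mul_le_mul_of_nonneg_left h2 hYσ).trans ?_)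
  have h3 : Y ^ (1 - σ) = Y * Real.exp (-(σ * Real.log Y)) := by
    rw [Real.rpow_sub hY0, Real.rpow_one, Real.rpow_def_of_pos hY0, Real.exp_neg,
      div_eq_mul_inv, mul_comm (Real.log Y) σ]
  have h4 : L ^ B = Real.exp (B * l) := by
    rw [← hl, ← Real.log_pow, Real.exp_log (pow_pos hL0 _)]
  rw [h3, h4, mul_assoc, ← Real.exp_add, div_eq_mul_inv, ← Real.exp_neg]
  refine mul_le_mul_of_nonneg_left (Real.exp_le_exp.2 ?_) hY0.le
  have h5 : l ^ 3 / (A' * l) ≤ σ * Real.log Y := by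
    rw [hσ, one_div, inv_mul_eq_div]
    exact div_le_div_of_nonneg_right hlogY hlt0.le
  have h6 := rsm_exp (B := B) (n := p.n) hA (l := l) (by rw [← hl₀]; exact hl1)
  linarith

end H57.LI
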